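import Mathlib

set_option autoImplicit false

/-! Sets of integers whose differences divide them. -/

namespace Pool.Agent.H355R2.APBQ

open Finset

/-- decomposition of `d` into a part prime to `c` and a part all of whose primes divide `c` -/
theorem exists_split (c : ℕ) (hc : 0 < c) (d : ℕ) (hd : 0 < d) :
    ∃ g t : ℕ, d = g * t ∧ Nat.Coprime g c ∧ ∀ l : ℕ, l.Prime → l ∣ t → l ∣ c := by
  induction d using Nat.strong_induction_on with
  | _ d ih =>
    by_cases h : Nat.Coprime d c
    · exact ⟨d, 1, by ring, h, fun l hl hl1 => absurd (Nat.dvd_one.1 hl1) hl.one_lt.ne'⟩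
    · obtain ⟨l, hl, hld, hlc⟩ := Nat.Prime.not_coprime_iff_dvd.1 h
      obtain ⟨d', rfl⟩ := hld
      have hd' : 0 < d' := Nat.pos_of_mul_pos_left hd
      obtain ⟨g, t, h1, h2, h3⟩ := ih d' (by
        have := hl.two_le
        nlinarith) hd'
      refine ⟨g, l * t, by rw [h1]; ring, h2, ?_⟩
      intro r hr hrt
      rcases (hr.dvd_mul).1 hrt with h4 | h4
      · rw [(Nat.prime_dvd_prime_iff_eq hr hl).1 h4]; exact hlc
      · exact h3 r hr h4

/-- simultaneous avoidance of `m` classes modulo each prime of a finite set of primes `> m` -/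
theorem exists_avoid_all (S : Finset ℕ) (hS : ∀ l ∈ S, l.Prime) (m : ℕ) (hm : ∀ l ∈ S, m < l)
    (L : ℕ) (hL : ∀ l ∈ S, ¬ l ∣ L) (r : ℕ → ℕ) :
    ∃ t : ℕ, 0 < t ∧ ∀ l ∈ S, ∀ i < m, ¬ l ∣ L * t + r i := by
  classical
  -- for each prime a good class
  have h1 : ∀ l ∈ S, ∃ t : ℕ, ∀ i < m, ¬ l ∣ L * t + r i := by
    intro l hl
    by_contra hcon
    push Not at hcon
    choose f hf1 hf2 using hcon
    obtain ⟨x, hx, y, hy, hxy, hfe⟩ := exists_ne_map_eq_of_card_lt_of_maps_to
      (s := range l) (t := range m) (by simpa using hm l hl) (f := f)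
      (fun n _ => mem_range.2 (hf1 n))
    rw [mem_range] at hx hy
    have h3 := hf2 x
    have h4 := hf2 y
    rw [hfe] at h3
    have h5 : (L * x + r (f y)) ≡ (L * y + r (f y)) [MOD l] :=
      (Nat.modEq_zero_iff_dvd.2 h3).trans (Nat.modEq_zero_iff_dvd.2 h4).symm
    have h6 : L * x ≡ L * y [MOD l] := Nat.ModEq.add_right_cancel' _ h5
    have h7 : x ≡ y [MOD l] := Nat.ModEq.cancel_left_of_coprime
      ((Nat.Prime.coprime_iff_not_dvd (hS l hl)).2 (hL l hl)) h6
    exact hxy (Nat.ModEq.eq_of_lt_of_lt h7 hx hy)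
  choose! τ hτ using h1
  have hpair : Set.Pairwise (S : Set ℕ) (Function.onFun Nat.Coprime (fun p : ℕ => p)) := by
    intro p hp q hq hpq
    exact (Nat.coprime_primes (hS p hp) (hS q hq)).2 hpq
  obtain ⟨t, ht⟩ := Nat.chineseRemainderOfFinset τ (fun p => p) S
    (fun i hi => (hS i hi).ne_zero) hpair
  refine ⟨t + ∏ l ∈ S, l, Nat.add_pos_right _ (prod_pos fun l hl => (hS l hl).pos), ?_⟩
  intro l hl i hi hdvd
  apply hτ l hl i hi
  have h2 : t + ∏ l ∈ S, l ≡ τ l [MOD l] := by
    have h3 : ∏ l ∈ S, l ≡ 0 [MOD l] := Nat.modEq_zero_iff_dvd.2 (dvd_prod_of_mem _ hl)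
    simpa using (ht l hl).add h3
  have h3 : L * (t + ∏ l ∈ S, l) + r i ≡ L * τ l + r i [MOD l] := (h2.mul_left L).add_right _
  exact Nat.modEq_zero_iff_dvd.1 (h3.symm.trans (Nat.modEq_zero_iff_dvd.2 hdvd))

/-- sets of `m` integers, all divisible by `W`, such that the differences divide the elements and
no difference is divisible by a prime of `S` -/
theorem exists_seq (W : ℕ) (hW : 0 < W) (k : ℕ) (S : Finset ℕ) (hS : ∀ l ∈ S, l.Prime)
    (hk : ∀ l ∈ S, k < l) (hWS : ∀ l ∈ S, ¬ l ∣ W) (m : ℕ) (hm : m + 1 ≤ k) :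
    ∃ f : ℕ → ℕ, (∀ i ≤ m, 0 < f i ∧ W ∣ f i) ∧ (∀ i ≤ m, ∀ l ∈ S, ¬ l ∣ f i) ∧
      (∀ i j, i < j → j ≤ m → f i < f j) ∧
      (∀ i j, i < j → j ≤ m → (f j - f i) ∣ f i) ∧
      (∀ i j, i < j → j ≤ m → ∀ l ∈ S, ¬ l ∣ (f j - f i)) := by
  classical
  induction m with
  | zero =>
    refine ⟨fun _ => W, fun i _ => ⟨hW, dvd_rfl⟩, fun i _ l hl => hWS l hl, ?_, ?_, ?_⟩
    · intro i j h1 h2; omega
    · intro i j h1 h2; omega
    · intro i j h1 h2; omega
  | succ m ih =>
    obtain ⟨f, h1, h2, h3, h4, h5⟩ := ih (by omega)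
    set L : ℕ := (∏ i ∈ range (m + 1), f i) *
      ∏ z ∈ ((range (m + 1)) ×ˢ (range (m + 1))).filter (fun z => z.1 < z.2), (f z.2 - f z.1) with hL
    have hLpos : 0 < L := by
      apply Nat.mul_pos
      · exact prod_pos fun i hi => (h1 i (by have := mem_range.1 hi; omega)).1
      · apply prod_pos
        intro z hz
        rw [mem_filter, mem_product, mem_range, mem_range] at hz
        have := h3 z.1 z.2 hz.2 (by omega)
        omega
    have hfL : ∀ i ≤ m, f i ∣ L := fun i hi =>
      Dvd.dvd.mul_right (dvd_prod_of_mem f (mem_range.2 (by omega))) _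
    have hdL : ∀ i j, i < j → j ≤ m → (f j - f i) ∣ L := by
      intro i j hij hj
      apply Dvd.dvd.mul_left
      have : (i, j) ∈ ((range (m + 1)) ×ˢ (range (m + 1))).filter (fun z => z.1 < z.2) := by
        rw [mem_filter, mem_product, mem_range, mem_range]
        exact ⟨⟨by simp only; omega, by simp only; omega⟩, hij⟩
      exact dvd_prod_of_mem (fun z : ℕ × ℕ => f z.2 - f z.1) this
    have hLS : ∀ l ∈ S, ¬ l ∣ L := by
      intro l hl hdvd
      rcases ((hS l hl).dvd_mul).1 hdvd with h6 | h6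
      · obtain ⟨i, hi, h7⟩ := ((hS l hl).prime.dvd_finsetProd_iff _).1 h6
        exact h2 i (by have := mem_range.1 hi; omega) l hl h7
      · obtain ⟨z, hz, h7⟩ := ((hS l hl).prime.dvd_finsetProd_iff _).1 h6
        rw [mem_filter, mem_product, mem_range, mem_range] at hz
        exact h5 z.1 z.2 hz.2 (by omega) l hl h7
    obtain ⟨t, ht0, ht⟩ := exists_avoid_all S hS (m + 2) (fun l hl => by
      have := hk l hl; omega) L hLS (fun i => if i = 0 then 0 else f (i - 1))
    set N := L * t with hN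
    have hNpos : 0 < N := Nat.mul_pos hLpos ht0
    have hNS : ∀ l ∈ S, ¬ l ∣ N := by
      intro l hl
      simpa using ht l hl 0 (by omega)
    have hNfS : ∀ i ≤ m, ∀ l ∈ S, ¬ l ∣ N + f i := by
      intro i hi l hl
      simpa using ht l hl (i + 1) (by omega)
    have hWL : W ∣ L := (h1 0 (by omega)).2.trans (hfL 0 (by omega))
    refine ⟨fun i => if i = 0 then N else N + f (i - 1), ?_, ?_, ?_, ?_, ?_⟩
    · intro i hi
      rcases Nat.eq_zero_or_pos i with h | h
      · simp only [h, if_true]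
        exact ⟨hNpos, hWL.mul_right _⟩
      · simp only [h.ne', if_false]
        exact ⟨by omega, dvd_add (hWL.mul_right _) (h1 (i - 1) (by omega)).2⟩
    · intro i hi l hl
      rcases Nat.eq_zero_or_pos i with h | h
      · simp only [h, if_true]; exact hNS l hl
      · simp only [h.ne', if_false]; exact hNfS (i - 1) (by omega) l hl
    · intro i j hij hj
      have hj0 : j ≠ 0 := by omega
      rcases Nat.eq_zero_or_pos i with h | h
      · simp only [h, if_true, hj0, if_false]
        have := (h1 (j - 1) (by omega)).1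
        omega
      · simp only [h.ne', if_false, hj0]
        have := h3 (i - 1) (j - 1) (by omega) (by omega)
        omega
    · intro i j hij hj
      have hj0 : j ≠ 0 := by omega
      rcases Nat.eq_zero_or_pos i with h | h
      · simp only [h, if_true, hj0, if_false]
        rw [Nat.add_sub_cancel_left]
        exact (hfL (j - 1) (by omega)).mul_right _
      · simp only [h.ne', if_false, hj0]
        rw [Nat.add_sub_add_left]
        exact dvd_add ((hdL (i - 1) (j - 1) (by omega) (by omega)).mul_right _)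
          (h4 (i - 1) (j - 1) (by omega) (by omega))
    · intro i j hij hj l hl
      have hj0 : j ≠ 0 := by omega
      rcases Nat.eq_zero_or_pos i with h | h
      · simp only [h, if_true, hj0, if_false]
        rw [Nat.add_sub_cancel_left]
        exact h2 (j - 1) (by omega) l hl
      · simp only [h.ne', if_false, hj0]
        rw [Nat.add_sub_add_left]
        exact h5 (i - 1) (j - 1) (by omega) (by omega) l hl

end Pool.Agent.H355R2.APBQ
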