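import Mathlib
import Pool.Agent.H355R2.MTBridge
import Pool.Agent.H355R2.APBQ1

set_option autoImplicit false

/-! The forms `(A + f_i C) n + (B + f_i D)` with `A D - B C = c`. -/

namespace Pool.Agent.H355R2.APBQ

open Finset

/-- the equation `a p - b q = c` has infinitely many solutions in primes -/
def InfSol (a b : ℕ) (c : ℤ) : Prop :=
  {z : ℕ × ℕ | z.1.Prime ∧ z.2.Prime ∧ (a : ℤ) * z.1 - b * z.2 = c}.Infinite

/-- the necessary conditions on `a, b, c` -/
def Admissible (a b : ℕ) (c : ℤ) : Prop :=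
  IsCoprime (a : ℤ) (b : ℤ) ∧ IsCoprime (a : ℤ) c ∧ IsCoprime (b : ℤ) c ∧
    ¬ (Odd a ∧ Odd b ∧ Odd c)

theorem master (k : ℕ) (hk : Pool.Agent.H355R2.MT.MaynardTao k) (c : ℕ) (hc : 0 < c) (f : ℕ → ℕ)
    (hfp : ∀ i < k, ∀ l : ℕ, l.Prime → l ≤ k → l ∣ f i)
    (hmono : ∀ i j, i < j → j < k → f i < f j)
    (hdiv : ∀ i j, i < j → j < k → (f j - f i) ∣ f i)
    (M : ℕ) (hMg : ∀ i j, i < j → j < k → ∀ g : ℕ, g ∣ f j - f i → Nat.Coprime g c → g ∣ M)
    (hMp : ∀ l : ℕ, l.Prime → l ≤ k → ¬ l ∣ c → l ∣ M)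
    (A C : ℕ) (hA : 0 < A) (hC : 0 < C) (hMA : M ∣ A) (hAc : A ≡ 1 [MOD c]) (hcC : c ∣ C)
    (hAC : Nat.Coprime A C) :
    ∃ i j, i < j ∧ j < k ∧ ∃ g t a b : ℕ, f j - f i = g * t ∧ 0 < g ∧ 0 < t ∧
      (∀ l : ℕ, l.Prime → l ∣ t → l ∣ c) ∧ g * a = A + f i * C ∧ g * b = A + f j * C ∧
      Admissible a b ((t * c : ℕ) : ℤ) ∧ InfSol a b ((t * c : ℕ) : ℤ) := by
  classical
  obtain ⟨B, D, hBD⟩ : ∃ B D : ℤ, (A : ℤ) * D - B * C = c := by
    have h := Int.isCoprime_iff_gcd_eq_one.2 (by
      rw [Int.gcd_natCast_natCast]; exact hAC : Int.gcd (A : ℤ) (C : ℤ) = 1)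
    obtain ⟨x, y, hxy⟩ := h
    refine ⟨-(c * y), c * x, ?_⟩
    linear_combination (c : ℤ) * hxy
  have hinjf : ∀ i j : Fin k, f i = f j → i = j := by
    intro i j h
    by_contra hne
    have hne' : (i : ℕ) ≠ j := fun h => hne (Fin.ext h)
    rcases Nat.lt_or_gt_of_ne hne' with h1 | h1
    · exact (hmono i j h1 j.2).ne h
    · exact (hmono j i h1 i.2).ne' h
  -- `l ∣ c` implies `A + f i C ≡ 1`
  have hone : ∀ l : ℕ, l ∣ c → ∀ i, (l : ℤ) ∣ ((A + f i * C : ℕ) : ℤ) - 1 := by
    intro l hl i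
    have h1 : ((c : ℕ) : ℤ) ∣ (A : ℤ) - 1 := by
      have := (Nat.modEq_iff_dvd.1 hAc.symm)
      simpa using this
    have h2 : (l : ℤ) ∣ (A : ℤ) - 1 := (Int.natCast_dvd_natCast.2 hl).trans h1
    have h3 : (l : ℤ) ∣ (C : ℤ) := Int.natCast_dvd_natCast.2 (hl.trans hcC)
    have h4 : ((A + f i * C : ℕ) : ℤ) - 1 = ((A : ℤ) - 1) + f i * C := by push_cast; ring
    rw [h4]
    exact dvd_add h2 (h3.mul_left _)
  obtain ⟨i, j, hij, hinf⟩ := hk (fun i : Fin k => A + f i * C) (fun i : Fin k => B + f i * D)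
    (fun i => by positivity) (by
      intro x y hxy
      simp only [Prod.mk.injEq] at hxy
      apply hinjf
      have h1 : f x * C = f y * C := by omega
      exact Nat.eq_of_mul_eq_mul_right hC h1) (by
      intro l hl
      have hlI : Prime (l : ℤ) := Nat.prime_iff_prime_int.1 hl
      by_cases hlc : l ∣ c
      · refine ⟨1 - B, fun i h => ?_⟩
        have h1 := hone l hlc i
        have hD : (l : ℤ) ∣ D := by
          have h2 : (l : ℤ) ∣ (A : ℤ) * D := by
            have : (A : ℤ) * D = c + B * C := by linarith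
            rw [this]
            exact dvd_add (Int.natCast_dvd_natCast.2 hlc)
              ((Int.natCast_dvd_natCast.2 (hlc.trans hcC)).mul_left _)
          rcases hlI.dvd_or_dvd h2 with h3 | h3
          · exfalso
            have h4 : l ∣ A := Int.natCast_dvd_natCast.1 h3
            have h5 : l ∣ 1 := by
              have h6 := hAc.of_dvd hlc
              exact (Nat.modEq_zero_iff_dvd.1 (h6.symm.trans (Nat.modEq_zero_iff_dvd.2 h4)))
            exact hl.one_lt.ne' (Nat.dvd_one.1 h5)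
          · exact h3
        have h3 : (((A + f i * C : ℕ) : ℤ)) * (1 - B) + (B + f i * D) =
            ((((A + f i * C : ℕ) : ℤ)) - 1) * (1 - B) + f i * D + 1 := by ring
        rw [h3] at h
        have h4 : (l : ℤ) ∣ 1 :=
          (dvd_add_right (dvd_add (h1.mul_right _) (hD.mul_left _))).1 h
        exact hlI.not_isUnit (isUnit_of_dvd_one h4)
      · by_cases hlk : l ≤ k
        · refine ⟨0, fun i h => ?_⟩
          rw [mul_zero, zero_add] at h
          have h1 : (l : ℤ) ∣ (f i : ℤ) * D :=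
            (Int.natCast_dvd_natCast.2 (hfp i i.2 l hl hlk)).mul_right _
          have h2 : (l : ℤ) ∣ B := (dvd_add_left h1).1 h
          have h3 : (l : ℤ) ∣ (A : ℤ) := Int.natCast_dvd_natCast.2 ((hMp l hl hlk hlc).trans hMA)
          have h4 : (l : ℤ) ∣ (c : ℤ) := by
            rw [← hBD]
            exact dvd_sub (h3.mul_right _) (h2.mul_right _)
          exact hlc (Int.natCast_dvd_natCast.1 h4)
        · obtain ⟨n, hn⟩ := Pool.Agent.H355R2.MT.exists_avoid' hl (not_le.1 hlk)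
            (fun i : Fin k => ((A + f i * C : ℕ) : ℤ)) (fun i : Fin k => B + f i * D) (by
            rintro i ⟨h1, h2⟩
            apply hlc
            have h4 : (l : ℤ) ∣ (c : ℤ) := by
              have h5 : (c : ℤ) = ((A + f i * C : ℕ) : ℤ) * D - (B + f i * D) * C := by
                rw [← hBD]; push_cast; ring
              rw [h5]
              exact dvd_sub (h1.mul_right _) (h2.mul_right _)
            exact Int.natCast_dvd_natCast.1 h4)
          exact ⟨n, hn⟩)
  have hk2 : 2 ≤ k := by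
    have h1 := i.2
    have h2 := j.2
    have hne' : (i : ℕ) ≠ j := fun h => hij (Fin.ext h)
    omega
  -- the result for an ordered pair
  have key : ∀ i j : Fin k, (i : ℕ) < j →
      {n : ℕ | (∃ p : ℕ, p.Prime ∧ (((A + f i * C : ℕ) : ℤ) * n + (B + f i * D) : ℤ) = p) ∧
        (∃ q : ℕ, q.Prime ∧ (((A + f j * C : ℕ) : ℤ) * n + (B + f j * D) : ℤ) = q)}.Infinite →
      ∃ i j, i < j ∧ j < k ∧ ∃ g t a b : ℕ, f j - f i = g * t ∧ 0 < g ∧ 0 < t ∧
      (∀ l : ℕ, l.Prime → l ∣ t → l ∣ c) ∧ g * a = A + f i * C ∧ g * b = A + f j * C ∧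
      Admissible a b ((t * c : ℕ) : ℤ) ∧ InfSol a b ((t * c : ℕ) : ℤ) := by
    intro i j hlt hI
    have hfij := hmono i j hlt j.2
    obtain ⟨g, t, hgt, hgc, htc⟩ := exists_split c hc (f j - f i) (by omega)
    have hgt0 : 0 < g * t := by rw [← hgt]; omega
    have hg0 : 0 < g := Nat.pos_of_mul_pos_right hgt0
    have ht0 : 0 < t := Nat.pos_of_mul_pos_left hgt0
    have hgA : g ∣ A := (hMg i j hlt j.2 g ⟨t, hgt⟩ hgc).trans hMA
    have hgfi : g ∣ f i := (Dvd.intro t hgt.symm).trans (hdiv i j hlt j.2)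
    have hgfj : g ∣ f j := by
      have h1 : f j = (f j - f i) + f i := by omega
      rw [h1]
      exact dvd_add (Dvd.intro t hgt.symm) hgfi
    obtain ⟨a, ha⟩ := dvd_add hgA (hgfi.mul_right C)
    obtain ⟨b, hb⟩ := dvd_add hgA (hgfj.mul_right C)
    have hba : b = a + t * C := by
      have h1 : g * b = g * (a + t * C) := by
        rw [← hb, mul_add, ← ha, ← mul_assoc, ← hgt, Nat.sub_mul]
        have : f i * C ≤ f j * C := Nat.mul_le_mul_right _ hfij.le
        omega
      exact Nat.eq_of_mul_eq_mul_left hg0 h1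
    have hna : ∀ l : ℕ, l.Prime → l ∣ a → ¬ l ∣ c := by
      intro l hl hla hlc
      have h1 := hone l hlc i
      have h2 : (l : ℤ) ∣ ((A + f i * C : ℕ) : ℤ) := by
        rw [ha]; exact Int.natCast_dvd_natCast.2 (hla.mul_left _)
      have h3 : (l : ℤ) ∣ 1 := by
        have := dvd_sub h2 h1
        simpa using this
      exact (Nat.prime_iff_prime_int.1 hl).not_isUnit (isUnit_of_dvd_one h3)
    have hnb : ∀ l : ℕ, l.Prime → l ∣ b → ¬ l ∣ c := by
      intro l hl hla hlc
      have h1 := hone l hlc j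
      have h2 : (l : ℤ) ∣ ((A + f j * C : ℕ) : ℤ) := by
        rw [hb]; exact Int.natCast_dvd_natCast.2 (hla.mul_left _)
      have h3 : (l : ℤ) ∣ 1 := by
        have := dvd_sub h2 h1
        simpa using this
      exact (Nat.prime_iff_prime_int.1 hl).not_isUnit (isUnit_of_dvd_one h3)
    have hab : Nat.Coprime a b := by
      by_contra hne
      obtain ⟨l, hl, hla, hlb⟩ := Nat.Prime.not_coprime_iff_dvd.1 hne
      have h1 : l ∣ t * C := by
        rw [hba] at hlb
        exact (Nat.dvd_add_right hla).1 hlb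
      rcases (hl.dvd_mul).1 h1 with h2 | h2
      · exact hna l hl hla (htc l hl h2)
      · have h3 : l ∣ A := by
          have h4 : l ∣ A + f i * C := by rw [ha]; exact hla.mul_left _
          exact (Nat.dvd_add_left (h2.mul_left _)).1 h4
        have h5 := Nat.dvd_gcd h3 h2
        rw [hAC] at h5
        exact hl.one_lt.ne' (Nat.dvd_one.1 h5)
    have htc' : ∀ l : ℕ, l.Prime → l ∣ t * c → l ∣ c := by
      intro l hl h
      rcases (hl.dvd_mul).1 h with h2 | h2
      · exact htc l hl h2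
      · exact h2
    have hac : Nat.Coprime a (t * c) := by
      by_contra hne
      obtain ⟨l, hl, hla, hlb⟩ := Nat.Prime.not_coprime_iff_dvd.1 hne
      exact hna l hl hla (htc' l hl hlb)
    have hbc : Nat.Coprime b (t * c) := by
      by_contra hne
      obtain ⟨l, hl, hla, hlb⟩ := Nat.Prime.not_coprime_iff_dvd.1 hne
      exact hnb l hl hla (htc' l hl hlb)
    refine ⟨i, j, hlt, j.2, g, t, a, b, hgt, hg0, ht0, htc, ha.symm, hb.symm, ?_, ?_⟩
    · refine ⟨Nat.isCoprime_iff_coprime.2 hab, Nat.isCoprime_iff_coprime.2 hac,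
        Nat.isCoprime_iff_coprime.2 hbc, ?_⟩
      rintro ⟨h1, h2, h3⟩
      have h3' : Odd (t * c) := by exact_mod_cast h3
      have hco : Odd c := (Nat.odd_mul.1 h3').2
      have h2c : ¬ 2 ∣ c := by
        intro h
        exact (Nat.not_even_iff_odd.2 hco) (even_iff_two_dvd.2 h)
      have h2A : 2 ∣ A := (hMp 2 Nat.prime_two hk2 h2c).trans hMA
      have hCodd : ¬ 2 ∣ C := by
        intro h
        have h5 := Nat.dvd_gcd h2A h
        rw [hAC] at h5
        omega
      have hto : Odd t := (Nat.odd_mul.1 h3').1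
      have hCo : Odd C := by
        rcases Nat.even_or_odd C with h | h
        · exact absurd (even_iff_two_dvd.1 h) hCodd
        · exact h
      rw [hba] at h2
      have h6 : Even (a + t * C) := h1.add_odd (hto.mul hCo)
      exact (Nat.not_even_iff_odd.2 h2) h6
    · -- infinitely many solutions
      have hinj : Set.InjOn (fun n : ℕ =>
          ((((A + f j * C : ℕ) : ℤ) * n + (B + f j * D) : ℤ).toNat,
            (((A + f i * C : ℕ) : ℤ) * n + (B + f i * D) : ℤ).toNat))
          {n : ℕ | (∃ p : ℕ, p.Prime ∧ (((A + f i * C : ℕ) : ℤ) * n + (B + f i * D) : ℤ) = p) ∧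
        (∃ q : ℕ, q.Prime ∧ (((A + f j * C : ℕ) : ℤ) * n + (B + f j * D) : ℤ) = q)} := by
        rintro x ⟨⟨p, hp, hpx⟩, _⟩ y ⟨⟨q, hq, hqy⟩, _⟩ hxy
        simp only [Prod.mk.injEq] at hxy
        have hxy2 := hxy.2
        rw [hpx, hqy] at hxy2
        simp only [Int.toNat_natCast] at hxy2
        rw [hxy2, ← hqy] at hpx
        have h3 : (((A + f i * C : ℕ) : ℤ)) * x = ((A + f i * C : ℕ) : ℤ) * y := by linarith
        have h4 : (((A + f i * C : ℕ) : ℤ)) ≠ 0 := by
          have : 0 < A + f i * C := by positivity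
          exact_mod_cast this.ne'
        exact_mod_cast mul_left_cancel₀ h4 h3
      apply (hI.image hinj).mono
      rintro z ⟨n, ⟨⟨p, hp, hpn⟩, ⟨q, hq, hqn⟩⟩, rfl⟩
      simp only [Set.mem_ofPred_eq]
      rw [hpn, hqn, Int.toNat_natCast, Int.toNat_natCast]
      refine ⟨hq, hp, ?_⟩
      have hgZ : (g : ℤ) ≠ 0 := by exact_mod_cast hg0.ne'
      apply mul_left_cancel₀ hgZ
      have ha' : (g : ℤ) * a = A + f i * C := by exact_mod_cast ha.symm
      have hb' : (g : ℤ) * b = A + f j * C := by exact_mod_cast hb.symm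
      have hgt' : (f j : ℤ) - f i = g * t := by
        have : f j = f i + g * t := by omega
        rw [this]; push_cast; ring
      have e1 : (g : ℤ) * (a * q - b * p) = (g * a) * q - (g * b) * p := by ring
      rw [e1, ha', hb', ← hqn, ← hpn]
      push_cast
      have e2 : (g : ℤ) * (t * c) = ((f j : ℤ) - f i) * c := by rw [hgt']; ring
      rw [e2, ← hBD]
      ring
  have hij' : (i : ℕ) ≠ j := fun h => hij (Fin.ext h)
  rcases Nat.lt_or_gt_of_ne hij' with h | h
  · exact key i j h hinf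
  · refine key j i h (hinf.mono ?_)
    rintro n ⟨h4, h5⟩
    exact ⟨h5, h4⟩

end Pool.Agent.H355R2.APBQ
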