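import Mathlib
import Pool.Agent.H355R2.APBQ2

set_option autoImplicit false

/-! Counting. -/

namespace Pool.Agent.H355R2.APBQ

open Finset

theorem count_class {l c u Z : ℕ} (hl : l.Prime) (hlc : ¬ l ∣ c) :
    ((range Z).filter (fun x => l ∣ u + c * x)).card ≤ Z / l + 1 := by
  classical
  rcases ((range Z).filter (fun x => l ∣ u + c * x)).eq_empty_or_nonempty with h | h
  · rw [h]; simp
  · obtain ⟨v, hv⟩ := h
    have hv' := (mem_filter.1 hv).2
    have hsub : (range Z).filter (fun x => l ∣ u + c * x) ⊆ (range Z).filter (fun x => x ≡ v [MOD l]) := by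
      intro x hx
      rw [mem_filter] at hx ⊢
      refine ⟨hx.1, ?_⟩
      have h5 : u + c * x ≡ u + c * v [MOD l] :=
        (Nat.modEq_zero_iff_dvd.2 hx.2).trans (Nat.modEq_zero_iff_dvd.2 hv').symm
      have h6 : c * x ≡ c * v [MOD l] := Nat.ModEq.add_left_cancel' _ h5
      exact Nat.ModEq.cancel_left_of_coprime ((Nat.Prime.coprime_iff_not_dvd hl).2 hlc) h6
    refine (card_le_card hsub).trans ?_
    rw [← Nat.count_eq_card_filter_range, Nat.count_modEq_card _ hl.pos]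
    split_ifs <;> omega

theorem count_coprime {c M u : ℕ} (hu : 0 < u) (huc : Nat.Coprime u c)
    (hP : ∀ l : ℕ, l.Prime → l ≤ 16 → l ∣ c ∨ l ∣ M) :
    ∃ Z₀ : ℕ, ∀ Z ≥ Z₀, (Z : ℝ) ^ 2 ≤
      2 * ((((range Z) ×ˢ (range Z)).filter
        (fun z => Nat.Coprime (u + c * z.1) (1 + M * z.2))).card : ℝ) := by
  classical
  refine ⟨4 * (u + c) + 1, fun Z hZ => ?_⟩
  set S := (range Z) ×ˢ (range Z) with hS
  set Y := u + c * Z with hY
  have hZ1 : 1 ≤ Z := by omega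
  set E : ℕ → Finset (ℕ × ℕ) := fun l =>
    ((range Z).filter (fun x => l ∣ u + c * x)) ×ˢ ((range Z).filter (fun x => l ∣ 1 + M * x)) with hE
  set Q := (Ioc 16 Y).filter (fun l => l.Prime ∧ ¬ l ∣ c ∧ ¬ l ∣ M) with hQ
  have hbad : S.filter (fun z => ¬ Nat.Coprime (u + c * z.1) (1 + M * z.2)) ⊆ Q.biUnion E := by
    intro z hz
    rw [mem_filter, hS, mem_product, mem_range, mem_range] at hz
    obtain ⟨⟨hz1, hz2⟩, hz3⟩ := hz
    obtain ⟨l, hl, h1, h2⟩ := Nat.Prime.not_coprime_iff_dvd.1 hz3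
    have hlc : ¬ l ∣ c := by
      intro h
      have h3 : l ∣ u := (Nat.dvd_add_left (h.mul_right _)).1 h1
      have h4 := Nat.dvd_gcd h3 h
      rw [huc] at h4
      exact hl.one_lt.ne' (Nat.dvd_one.1 h4)
    have hlM : ¬ l ∣ M := by
      intro h
      have h3 : l ∣ 1 := (Nat.dvd_add_left (h.mul_right _)).1 h2
      exact hl.one_lt.ne' (Nat.dvd_one.1 h3)
    have hl16 : 16 < l := by
      by_contra h
      rcases hP l hl (by omega) with h3 | h3
      · exact hlc h3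
      · exact hlM h3
    have hlY : l ≤ Y := by
      have h3 : 0 < u + c * z.1 := by omega
      refine (Nat.le_of_dvd h3 h1).trans ?_
      rw [hY]
      have := Nat.mul_le_mul_left c hz1.le
      omega
    rw [mem_biUnion]
    refine ⟨l, ?_, ?_⟩
    · rw [hQ, mem_filter, mem_Ioc]
      exact ⟨⟨hl16, hlY⟩, hl, hlc, hlM⟩
    · rw [hE]
      simp only [mem_product, mem_filter, mem_range]
      exact ⟨⟨hz1, h1⟩, hz2, h2⟩
  have hcardE : ∀ l ∈ Q, ((E l).card : ℝ) ≤ 4 * (Z : ℝ) ^ 2 * (((l : ℝ) ^ 2)⁻¹) + 1 := by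
    intro l hlQ
    rw [hQ, mem_filter, mem_Ioc] at hlQ
    obtain ⟨⟨hl16, hlY⟩, hl, hlc, hlM⟩ := hlQ
    have h1 := count_class (u := u) (Z := Z) hl hlc
    have h2 := count_class (u := 1) (Z := Z) hl hlM
    have h3 : (E l).card ≤ (Z / l + 1) * (Z / l + 1) := by
      rw [hE, card_product]
      exact Nat.mul_le_mul h1 h2
    have hl0 : (0 : ℝ) < l := by exact_mod_cast hl.pos
    rcases Nat.lt_or_ge Z l with h | h
    · rw [Nat.div_eq_of_lt h] at h3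
      have h4 : ((E l).card : ℝ) ≤ 1 := by exact_mod_cast h3
      have h5 : 0 ≤ 4 * (Z : ℝ) ^ 2 * (((l : ℝ) ^ 2)⁻¹) := by positivity
      linarith
    · have h4 : ((Z / l + 1 : ℕ) : ℝ) ≤ 2 * ((Z : ℝ) / l) := by
        push_cast
        have h5 : ((Z / l : ℕ) : ℝ) ≤ (Z : ℝ) / l := Nat.cast_div_le
        have h6 : (1 : ℝ) ≤ (Z : ℝ) / l := by
          rw [le_div_iff₀ hl0, one_mul]
          exact_mod_cast h
        linarith
      have h5 : ((E l).card : ℝ) ≤ ((Z / l + 1 : ℕ) : ℝ) * ((Z / l + 1 : ℕ) : ℝ) := by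
        exact_mod_cast h3
      have h6 : ((Z / l + 1 : ℕ) : ℝ) * ((Z / l + 1 : ℕ) : ℝ) ≤
          (2 * ((Z : ℝ) / l)) * (2 * ((Z : ℝ) / l)) :=
        mul_le_mul h4 h4 (by positivity) (by positivity)
      have h7 : (2 * ((Z : ℝ) / l)) * (2 * ((Z : ℝ) / l)) = 4 * (Z : ℝ) ^ 2 * (((l : ℝ) ^ 2)⁻¹) := by
        field_simp
        ring
      linarith
  have hsum : ((S.filter (fun z => ¬ Nat.Coprime (u + c * z.1) (1 + M * z.2))).card : ℝ) ≤
      (Z : ℝ) ^ 2 / 4 + Y := by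
    have h1 : (S.filter (fun z => ¬ Nat.Coprime (u + c * z.1) (1 + M * z.2))).card ≤
        ∑ l ∈ Q, (E l).card := (card_le_card hbad).trans card_biUnion_le
    have h2 : ((S.filter (fun z => ¬ Nat.Coprime (u + c * z.1) (1 + M * z.2))).card : ℝ) ≤
        ∑ l ∈ Q, ((E l).card : ℝ) := by exact_mod_cast h1
    have h3 : ∑ l ∈ Q, ((E l).card : ℝ) ≤
        ∑ l ∈ Ioc 16 Y, (4 * (Z : ℝ) ^ 2 * (((l : ℝ) ^ 2)⁻¹) + 1) :=
      (sum_le_sum hcardE).trans (sum_le_sum_of_subset_of_nonneg (filter_subset _ _)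
        (fun l _ _ => by positivity))
    have h4 : ∑ l ∈ Ioc 16 Y, (4 * (Z : ℝ) ^ 2 * (((l : ℝ) ^ 2)⁻¹) + 1) =
        4 * (Z : ℝ) ^ 2 * ∑ l ∈ Ioc 16 Y, (((l : ℝ) ^ 2)⁻¹) + ((Y - 16 : ℕ) : ℝ) := by
      rw [sum_add_distrib, ← mul_sum, sum_const, Nat.card_Ioc]
      simp
    have h5 : ∑ l ∈ Ioc 16 Y, (((l : ℝ) ^ 2)⁻¹) ≤ 1 / 16 := by
      rcases Nat.lt_or_ge Y 16 with h | h
      · rw [Ioc_eq_empty (by omega), sum_empty]; norm_num
      · have h6 := sum_Ioc_inv_sq_le_sub (α := ℝ) (k := 16) (n := Y) (by norm_num) h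
        have h7 : (0 : ℝ) ≤ (Y : ℝ)⁻¹ := by positivity
        refine h6.trans ?_
        norm_num
    have h6 : ((Y - 16 : ℕ) : ℝ) ≤ Y := by exact_mod_cast Nat.sub_le _ _
    have h7 : 4 * (Z : ℝ) ^ 2 * ∑ l ∈ Ioc 16 Y, (((l : ℝ) ^ 2)⁻¹) ≤ 4 * (Z : ℝ) ^ 2 * (1 / 16) :=
      mul_le_mul_of_nonneg_left h5 (by positivity)
    linarith
  have hY' : (Y : ℝ) ≤ (Z : ℝ) ^ 2 / 4 := by
    have h1 : (4 * (u + c) + 1 : ℝ) ≤ Z := by exact_mod_cast hZ
    have h2 : (1 : ℝ) ≤ Z := by exact_mod_cast hZ1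
    have h3 : (Y : ℝ) = u + c * Z := by rw [hY]; push_cast; ring
    rw [h3]
    have hu0 : (0 : ℝ) ≤ u := by positivity
    have hc0 : (0 : ℝ) ≤ c := by positivity
    nlinarith
  have htot : (S.card : ℝ) = (Z : ℝ) ^ 2 := by
    rw [hS, card_product, card_range]; push_cast; ring
  have hsplit := card_filter_add_card_filter_not (s := S)
    (fun z : ℕ × ℕ => Nat.Coprime (u + c * z.1) (1 + M * z.2))
  have hsplit' : ((S.filter (fun z => Nat.Coprime (u + c * z.1) (1 + M * z.2))).card : ℝ) +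
      ((S.filter (fun z => ¬ Nat.Coprime (u + c * z.1) (1 + M * z.2))).card : ℝ) = (Z : ℝ) ^ 2 := by
    rw [← htot]; exact_mod_cast hsplit
  linarith

end Pool.Agent.H355R2.APBQ
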