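import Mathlib
import Pool.Agent.H355R2.APBQ3

set_option autoImplicit false

/-! A positive proportion of pairs `(a, b)`. -/

namespace Pool.Agent.H355R2.APBQ

open Finset

/-- for some `t ≤ T`, all of whose prime factors are `≤ k` and divide `c`, the equation
`a p - b q = t c` has infinitely many prime solutions -/
def GoodPair (k T : ℕ) (c : ℤ) (a b : ℕ) : Prop :=
  ∃ t : ℕ, 0 < t ∧ t ≤ T ∧ (∀ l : ℕ, l.Prime → l ∣ t → l ≤ k ∧ (l : ℤ) ∣ c) ∧
    Admissible a b (t * c) ∧ InfSol a b (t * c)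

theorem infSol_neg {a b : ℕ} {c : ℤ} (h : InfSol a b c) : InfSol b a (-c) := by
  unfold InfSol at h ⊢
  have h1 := h.image (f := Prod.swap) (Prod.swap_injective.injOn)
  apply h1.mono
  rintro z ⟨w, ⟨h2, h3, h4⟩, rfl⟩
  exact ⟨h3, h2, by simp only [Prod.fst_swap, Prod.snd_swap]; linarith⟩

theorem goodPair_neg {k T : ℕ} {c : ℤ} {a b : ℕ} (h : GoodPair k T c a b) :
    GoodPair k T (-c) b a := by
  obtain ⟨t, h1, h2, h3, ⟨h4, h5, h6, h7⟩, h8⟩ := h
  have e : (t : ℤ) * -c = -(t * c) := by ring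
  refine ⟨t, h1, h2, fun l hl hlt => ⟨(h3 l hl hlt).1, (dvd_neg).2 (h3 l hl hlt).2⟩, ?_, ?_⟩
  · rw [e]
    refine ⟨h4.symm, h6.neg_right, h5.neg_right, ?_⟩
    rintro ⟨h9, h10, h11⟩
    exact h7 ⟨h10, h9, by simpa using h11.neg⟩
  · rw [e]; exact infSol_neg h8

open Classical in
theorem proportion_nat (k : ℕ) (hk16 : 16 ≤ k) (hk : Pool.Agent.H355R2.MT.MaynardTao k) (c : ℕ)
    (hc : 0 < c) : ∃ T : ℕ, ∃ δ : ℝ, 0 < δ ∧ ∃ X₀ : ℕ, ∀ X ≥ X₀, δ * (X : ℝ) ^ 2 ≤
      (((Icc 1 X ×ˢ Icc 1 X).filter (fun z => GoodPair k T c z.1 z.2)).card : ℝ) := by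
  -- the sequence `f`
  obtain ⟨f, hf1, -, hf3, hf4, hf5⟩ := exists_seq (k.factorial) (Nat.factorial_pos k) k
    (c.primeFactors.filter (fun l => k < l)) (fun l hl => (Nat.mem_primeFactors.1
      (mem_filter.1 hl).1).1) (fun l hl => (mem_filter.1 hl).2) (by
      intro l hl h
      rw [mem_filter, Nat.mem_primeFactors] at hl
      exact absurd ((hl.1.1.dvd_factorial).1 h) (not_le.2 hl.2)) (k - 1) (by omega)
  have hfp : ∀ i < k, ∀ l : ℕ, l.Prime → l ≤ k → l ∣ f i := fun i hi l hl hlk =>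
    ((hl.dvd_factorial).2 hlk).trans (hf1 i (by omega)).2
  have hmono : ∀ i j, i < j → j < k → f i < f j := fun i j h1 h2 => hf3 i j h1 (by omega)
  have hdiv : ∀ i j, i < j → j < k → (f j - f i) ∣ f i := fun i j h1 h2 => hf4 i j h1 (by omega)
  set F : ℕ := f (k - 1) with hF
  have hfF : ∀ i < k, f i ≤ F := by
    intro i hi
    rcases Nat.lt_or_ge i (k - 1) with h | h
    · exact (hmono i (k - 1) h (by omega)).le
    · have : i = k - 1 := by omega
      rw [this]
  -- the modulus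
  set D₀ : ℕ := k.factorial *
    ∏ z ∈ ((range k) ×ˢ (range k)).filter (fun z => z.1 < z.2), (f z.2 - f z.1) with hD₀
  have hD₀pos : 0 < D₀ := by
    apply Nat.mul_pos (Nat.factorial_pos k)
    apply prod_pos
    intro z hz
    rw [mem_filter, mem_product, mem_range, mem_range] at hz
    have := hmono z.1 z.2 hz.2 hz.1.2
    omega
  have hdD : ∀ i j, i < j → j < k → (f j - f i) ∣ D₀ := by
    intro i j hij hj
    apply Dvd.dvd.mul_left
    have : (i, j) ∈ ((range k) ×ˢ (range k)).filter (fun z => z.1 < z.2) := by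
      rw [mem_filter, mem_product, mem_range, mem_range]
      exact ⟨⟨by simp only; omega, hj⟩, hij⟩
    exact dvd_prod_of_mem (fun z : ℕ × ℕ => f z.2 - f z.1) this
  obtain ⟨M, t₀, hMt, hMc, ht₀⟩ := exists_split c hc D₀ hD₀pos
  have hMpos : 0 < M := Nat.pos_of_mul_pos_right (hMt ▸ hD₀pos)
  have hMg : ∀ i j, i < j → j < k → ∀ g : ℕ, g ∣ f j - f i → Nat.Coprime g c → g ∣ M := by
    intro i j hij hj g hg hgc
    have h1 : g ∣ M * t₀ := by rw [← hMt]; exact hg.trans (hdD i j hij hj)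
    refine Nat.Coprime.dvd_of_dvd_mul_right ?_ h1
    by_contra hne
    obtain ⟨l, hl, h2, h3⟩ := Nat.Prime.not_coprime_iff_dvd.1 hne
    have h4 := Nat.dvd_gcd h2 (ht₀ l hl h3)
    rw [hgc] at h4
    exact hl.one_lt.ne' (Nat.dvd_one.1 h4)
  have hMp : ∀ l : ℕ, l.Prime → l ≤ k → ¬ l ∣ c → l ∣ M := by
    intro l hl hlk hlc
    have h1 : l ∣ M * t₀ := by
      rw [← hMt]
      exact ((hl.dvd_factorial).2 hlk).mul_right _
    rcases (hl.dvd_mul).1 h1 with h2 | h2
    · exact h2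
    · exact absurd (ht₀ l hl h2) hlc
  -- the inverse of `M` modulo `c`
  obtain ⟨u, hu0, hu⟩ : ∃ u : ℕ, 0 < u ∧ M * u ≡ 1 [MOD c] := by
    obtain ⟨v, -, hv⟩ := Nat.exists_mul_mod_eq_of_coprime 1 hMc hc.ne'
    refine ⟨v + c, by omega, ?_⟩
    have h1 : M * (v + c) = M * v + M * c := by ring
    rw [h1]
    have h2 : M * v ≡ 1 [MOD c] := hv
    have h3 : M * c ≡ 0 [MOD c] := Nat.modEq_zero_iff_dvd.2 (Dvd.intro_left M rfl)
    simpa using h2.add h3
  have huc : Nat.Coprime u c := by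
    by_contra hne
    obtain ⟨l, hl, h2, h3⟩ := Nat.Prime.not_coprime_iff_dvd.1 hne
    have h4 := hu.of_dvd h3
    have h5 : l ∣ 1 := Nat.modEq_zero_iff_dvd.1
      (h4.symm.trans (Nat.modEq_zero_iff_dvd.2 (h2.mul_left _)))
    exact hl.one_lt.ne' (Nat.dvd_one.1 h5)
  obtain ⟨Z₀, hZ₀⟩ := count_coprime (c := c) (M := M) hu0 huc (by
    intro l hl hl16
    by_cases h : l ∣ c
    · exact Or.inl h
    · exact Or.inr (hMp l hl (by omega) h))
  set A : ℕ × ℕ → ℕ := fun z => M * (u + c * z.1) with hA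
  set C : ℕ × ℕ → ℕ := fun z => c * (1 + M * z.2) with hC
  have hmain : ∀ z : ℕ × ℕ, Nat.Coprime (u + c * z.1) (1 + M * z.2) →
      ∃ i j, i < j ∧ j < k ∧ ∃ g t a b : ℕ, f j - f i = g * t ∧ 0 < g ∧ 0 < t ∧
      (∀ l : ℕ, l.Prime → l ∣ t → l ∣ c) ∧ g * a = A z + f i * C z ∧ g * b = A z + f j * C z ∧
      Admissible a b ((t * c : ℕ) : ℤ) ∧ InfSol a b ((t * c : ℕ) : ℤ) := by
    intro z hz
    have hA0 : 0 < A z := Nat.mul_pos hMpos (by omega)
    have hC0 : 0 < C z := Nat.mul_pos hc (by omega)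
    apply master k hk c hc f hfp hmono hdiv M hMg hMp (A z) (C z) hA0 hC0
    · exact Dvd.intro _ rfl
    · have h1 : A z = M * u + c * (M * z.1) := by rw [hA]; ring
      rw [h1]
      have h3 : c * (M * z.1) ≡ 0 [MOD c] := Nat.modEq_zero_iff_dvd.2 (Dvd.intro _ rfl)
      simpa using hu.add h3
    · exact Dvd.intro _ rfl
    · have h1 : Nat.Coprime (u + c * z.1) c := by
        rw [Nat.coprime_add_mul_left_left]; exact huc
      have h2 : Nat.Coprime M (1 + M * z.2) := by
        rw [Nat.coprime_add_mul_left_right]; exact Nat.coprime_one_right M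
      exact Nat.Coprime.mul_left (Nat.Coprime.mul_right hMc h2) (Nat.Coprime.mul_right h1 hz)
  choose! I J hIJ hJk G t a b hgt hg0 ht0 htc ha hb hadm hinf using hmain
  set N : ℕ := k * k * (F + 1) with hN
  set K : ℕ := M * (u + c) + F * (c * (1 + M)) with hK
  have hKpos : 0 < K := by
    have : 0 < M * (u + c) := Nat.mul_pos hMpos (by omega)
    omega
  have hNpos : 0 < N := by
    apply Nat.mul_pos (Nat.mul_pos (by omega) (by omega)) (by omega)
  refine ⟨F, 1 / (8 * (N : ℝ) * (K : ℝ) ^ 2), by positivity, K * (Z₀ + 1), fun X hX => ?_⟩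
  set Z := X / K with hZ
  have hZge : Z₀ + 1 ≤ Z := (Nat.le_div_iff_mul_le hKpos).2 (by rw [mul_comm]; exact hX)
  have hKZ : K * Z ≤ X := Nat.mul_div_le X K
  have hcnt := hZ₀ Z (by omega)
  set P := ((range Z) ×ˢ (range Z)).filter
        (fun z => Nat.Coprime (u + c * z.1) (1 + M * z.2)) with hP
  have hPmem : ∀ z ∈ P, z.1 < Z ∧ z.2 < Z ∧ Nat.Coprime (u + c * z.1) (1 + M * z.2) := by
    intro z hz
    rw [hP, mem_filter, mem_product, mem_range, mem_range] at hz
    exact ⟨hz.1.1, hz.1.2, hz.2⟩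
  -- the image lies in the good set
  have hsub : P.image (fun z => (a z, b z)) ⊆
      (Icc 1 X ×ˢ Icc 1 X).filter (fun z => GoodPair k F c z.1 z.2) := by
    intro w hw
    obtain ⟨z, hz, rfl⟩ := mem_image.1 hw
    obtain ⟨hz1, hz2, hz3⟩ := hPmem z hz
    have hik : I z < k := (hIJ z hz3).trans (hJk z hz3)
    have hAle : A z ≤ M * (u + c) * Z := by
      have h1 : u + c * z.1 ≤ (u + c) * Z := by nlinarith
      calc A z = M * (u + c * z.1) := rfl
        _ ≤ M * ((u + c) * Z) := Nat.mul_le_mul_left _ h1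
        _ = M * (u + c) * Z := by ring
    have hCle : C z ≤ c * (1 + M) * Z := by
      have h1 : 1 + M * z.2 ≤ (1 + M) * Z := by nlinarith
      calc C z = c * (1 + M * z.2) := rfl
        _ ≤ c * ((1 + M) * Z) := Nat.mul_le_mul_left _ h1
        _ = c * (1 + M) * Z := by ring
    have hbound : ∀ i < k, A z + f i * C z ≤ X := by
      intro i hi
      have h1 : f i * C z ≤ F * (c * (1 + M) * Z) := Nat.mul_le_mul (hfF i hi) hCle
      have h2 : M * (u + c) * Z + F * (c * (1 + M) * Z) = K * Z := by rw [hK]; ring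
      omega
    have hA0 : 0 < A z := Nat.mul_pos hMpos (by omega)
    have ha1 : 1 ≤ a z := by
      rcases Nat.eq_zero_or_pos (a z) with h | h
      · have := ha z hz3
        rw [h, mul_zero] at this
        omega
      · exact h
    have hb1 : 1 ≤ b z := by
      rcases Nat.eq_zero_or_pos (b z) with h | h
      · have := hb z hz3
        rw [h, mul_zero] at this
        omega
      · exact h
    have haX : a z ≤ X := by
      have h1 : a z ≤ G z * a z := Nat.le_mul_of_pos_left _ (hg0 z hz3)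
      rw [ha z hz3] at h1
      exact h1.trans (hbound _ hik)
    have hbX : b z ≤ X := by
      have h1 : b z ≤ G z * b z := Nat.le_mul_of_pos_left _ (hg0 z hz3)
      rw [hb z hz3] at h1
      exact h1.trans (hbound _ (hJk z hz3))
    rw [mem_filter, mem_product, mem_Icc, mem_Icc]
    refine ⟨⟨⟨ha1, haX⟩, ⟨hb1, hbX⟩⟩, t z, ht0 z hz3, ?_, ?_, ?_, ?_⟩
    · have h1 : t z ≤ G z * t z := Nat.le_mul_of_pos_left _ (hg0 z hz3)
      rw [← hgt z hz3] at h1
      have h2 := hfF _ (hJk z hz3)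
      omega
    · intro l hl hlt
      have hlc := htc z hz3 l hl hlt
      refine ⟨?_, Int.natCast_dvd_natCast.2 hlc⟩
      by_contra hlk
      have hlS : l ∈ c.primeFactors.filter (fun l => k < l) := by
        rw [mem_filter, Nat.mem_primeFactors]
        exact ⟨⟨hl, hlc, hc.ne'⟩, not_le.1 hlk⟩
      apply hf5 (I z) (J z) (hIJ z hz3) (by have := hJk z hz3; omega) l hlS
      rw [hgt z hz3]
      exact hlt.mul_left _
    · have := hadm z hz3
      push_cast at this
      exact this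
    · have := hinf z hz3
      push_cast at this
      exact this
  -- fibres
  have hfib : P.card ≤ N * (P.image (fun z => (a z, b z))).card := by
    apply card_le_mul_card_image
    intro w hw
    have hcard : N = (((range k) ×ˢ (range k)) ×ˢ (range (F + 1))).card := by
      rw [card_product, card_product, card_range, card_range]
    rw [hcard]
    apply card_le_card_of_injOn (fun z => ((I z, J z), G z))
    · intro z hz
      rw [mem_coe, mem_filter] at hz
      obtain ⟨hz1, hz2, hz3⟩ := hPmem z hz.1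
      have h1 := hIJ z hz3
      have h2 := hJk z hz3
      rw [mem_coe, mem_product, mem_product, mem_range, mem_range, mem_range]
      refine ⟨⟨h1.trans h2, h2⟩, ?_⟩
      have h3 : G z ≤ G z * t z := Nat.le_mul_of_pos_right _ (ht0 z hz3)
      rw [← hgt z hz3] at h3
      have h4 := hfF _ h2
      simp only
      omega
    · intro z hz z' hz' heq
      rw [mem_coe, mem_filter] at hz hz'
      obtain ⟨-, -, hz3⟩ := hPmem z hz.1
      obtain ⟨-, -, hz3'⟩ := hPmem z' hz'.1
      have hab : (a z, b z) = (a z', b z') := hz.2.trans hz'.2.symm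
      rw [Prod.mk.injEq] at hab
      simp only [Prod.mk.injEq] at heq
      obtain ⟨⟨hI, hJ⟩, hG⟩ := heq
      have e1 := ha z hz3
      have e2 := hb z hz3
      have e1' := ha z' hz3'
      have e2' := hb z' hz3'
      rw [← hab.1, ← hI, ← hG] at e1'
      rw [← hab.2, ← hJ, ← hG] at e2'
      have hlt := hmono _ _ (hIJ z hz3) (hJk z hz3)
      -- equal `C`
      have hCeq : C z = C z' := by
        have h1 : ((f (J z) : ℤ) - f (I z)) * C z = ((f (J z) : ℤ) - f (I z)) * C z' := by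
          have q1 : (G z : ℤ) * a z = A z + f (I z) * C z := by exact_mod_cast e1
          have q2 : (G z : ℤ) * b z = A z + f (J z) * C z := by exact_mod_cast e2
          have q3 : (G z : ℤ) * a z = A z' + f (I z) * C z' := by exact_mod_cast e1'
          have q4 : (G z : ℤ) * b z = A z' + f (J z) * C z' := by exact_mod_cast e2'
          linear_combination -q2 + q1 + q4 - q3
        have h2 : ((f (J z) : ℤ) - f (I z)) ≠ 0 := by
          have : (f (I z) : ℤ) < f (J z) := by exact_mod_cast hlt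
          linarith
        exact_mod_cast mul_left_cancel₀ h2 h1
      have hAeq : A z = A z' := by
        rw [hCeq] at e1
        have := e1.symm.trans e1'
        omega
      have h1 : z.1 = z'.1 := by
        have h2 : M * (u + c * z.1) = M * (u + c * z'.1) := hAeq
        have h3 := Nat.eq_of_mul_eq_mul_left hMpos h2
        exact Nat.eq_of_mul_eq_mul_left hc (Nat.add_left_cancel h3)
      have h2 : z.2 = z'.2 := by
        have h2 : c * (1 + M * z.2) = c * (1 + M * z'.2) := hCeq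
        have h3 := Nat.eq_of_mul_eq_mul_left hc h2
        exact Nat.eq_of_mul_eq_mul_left hMpos (Nat.add_left_cancel h3)
      exact Prod.ext h1 h2
  have hfin : (P.card : ℝ) ≤ N *
      (((Icc 1 X ×ˢ Icc 1 X).filter (fun z => GoodPair k F c z.1 z.2)).card : ℝ) := by
    have h1 := hfib.trans (Nat.mul_le_mul_left N (card_le_card hsub))
    exact_mod_cast h1
  have hXZ : (X : ℝ) ≤ 2 * K * Z := by
    have h1 : X < K * (Z + 1) := by
      rw [hZ]
      exact Nat.lt_mul_div_succ X hKpos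
    have h2 : (X : ℝ) ≤ K * (Z + 1) := by exact_mod_cast h1.le
    have h3 : (1 : ℝ) ≤ Z := by exact_mod_cast (by omega : 1 ≤ Z)
    have h4 : (0 : ℝ) < K := by exact_mod_cast hKpos
    nlinarith
  have hK0 : (0 : ℝ) < K := by exact_mod_cast hKpos
  have hN0 : (0 : ℝ) < N := by exact_mod_cast hNpos
  have hX2 : (X : ℝ) ^ 2 ≤ 4 * (K : ℝ) ^ 2 * (Z : ℝ) ^ 2 := by
    have h1 : (0 : ℝ) ≤ X := by positivity
    nlinarith
  rw [div_mul_eq_mul_div, one_mul, div_le_iff₀ (by positivity)]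
  set Q : ℝ := (((Icc 1 X ×ˢ Icc 1 X).filter (fun z => GoodPair k F c z.1 z.2)).card : ℝ) with hQ
  have h5 : (Z : ℝ) ^ 2 ≤ 2 * (N * Q) := hcnt.trans (mul_le_mul_of_nonneg_left hfin (by norm_num))
  have h6 : (0 : ℝ) < 4 * (K : ℝ) ^ 2 := by positivity
  calc (X : ℝ) ^ 2 ≤ 4 * (K : ℝ) ^ 2 * (Z : ℝ) ^ 2 := hX2
    _ ≤ 4 * (K : ℝ) ^ 2 * (2 * (N * Q)) := mul_le_mul_of_nonneg_left h5 h6.le
    _ = Q * (8 * N * (K : ℝ) ^ 2) := by ring

open Classical in
/-- **A positive proportion of pairs `(a, b)`**, from Maynard-Tao for `k` forms. -/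
theorem proportion (k : ℕ) (hk16 : 16 ≤ k) (hk : Pool.Agent.H355R2.MT.MaynardTao k) (c : ℤ)
    (hc : c ≠ 0) : ∃ T : ℕ, ∃ δ : ℝ, 0 < δ ∧ ∃ X₀ : ℕ, ∀ X ≥ X₀, δ * (X : ℝ) ^ 2 ≤
      (((Icc 1 X ×ˢ Icc 1 X).filter (fun z => GoodPair k T c z.1 z.2)).card : ℝ) := by
  have hc' : 0 < c.natAbs := Int.natAbs_pos.2 hc
  obtain ⟨T, δ, hδ, X₀, h⟩ := proportion_nat k hk16 hk c.natAbs hc'
  rcases Int.natAbs_eq c with h1 | h1
  · rw [← h1] at h
    exact ⟨T, δ, hδ, X₀, h⟩
  · have h2 : ((c.natAbs : ℕ) : ℤ) = -c := by omega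
    rw [h2] at h
    refine ⟨T, δ, hδ, X₀, fun X hX => (h X hX).trans ?_⟩
    have h3 : ((Icc 1 X ×ˢ Icc 1 X).filter (fun z : ℕ × ℕ => GoodPair k T (-c) z.1 z.2)).card ≤
        ((Icc 1 X ×ˢ Icc 1 X).filter (fun z : ℕ × ℕ => GoodPair k T c z.1 z.2)).card := by
      apply card_le_card_of_injOn Prod.swap
      · intro z hz
        rw [mem_coe, mem_filter, mem_product] at hz ⊢
        refine ⟨⟨hz.1.2, hz.1.1⟩, ?_⟩
        have := goodPair_neg hz.2
        rwa [neg_neg] at this
      · exact Prod.swap_injective.injOn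
    exact_mod_cast h3

end Pool.Agent.H355R2.APBQ
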