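import Pool.Agent.H355R2.MTBridge
import Pool.Agent.H95R2.BG.FinalL

/-!
# The Maynard-Tao theorem for 49 linear forms (helper95), in the form used for ratios of shifted
primes
-/

set_option autoImplicit false

namespace Pool.Agent.H355R2.MT

open Finset Pool.Agent.H95R2.BG.LF

theorem maynardTao49 : MaynardTao 49 := by
  classical
  intro A B hA hinj hadm
  -- primitive forms
  have hprim : ∀ i, ∀ p : ℕ, p.Prime → ¬ ((p : ℤ) ∣ A i ∧ (p : ℤ) ∣ B i) := by
    intro i p hp ⟨h1, h2⟩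
    obtain ⟨n, hn⟩ := hadm p hp
    exact hn i (dvd_add (Dvd.dvd.mul_right h1 _) h2)
  have hcop : ∀ i, IsCoprime (A i : ℤ) (B i) := fun i => isCoprime_of_forall_prime (hprim i)
  -- the shift
  set N : ℕ := ∑ i, (B i).natAbs + 1 with hN
  have hbpos : ∀ i, 1 ≤ (A i : ℤ) * N + B i := by
    intro i
    have h1 : (B i).natAbs ≤ ∑ i, (B i).natAbs :=
      Finset.single_le_sum (f := fun i => (B i).natAbs) (fun _ _ => Nat.zero_le _) (mem_univ i)
    have h2 : (1 : ℤ) ≤ A i := by exact_mod_cast hA i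
    have h3 : ((B i).natAbs : ℤ) + 1 ≤ N := by
      have : (B i).natAbs + 1 ≤ N := by omega
      exact_mod_cast this
    have h4 : -((B i).natAbs : ℤ) ≤ B i := by
      have := neg_abs_le (B i)
      rwa [Int.abs_eq_natAbs] at this
    nlinarith
  set b : Fin 49 → ℕ := fun i => ((A i : ℤ) * N + B i).toNat with hb
  have hbz : ∀ i, (b i : ℤ) = (A i : ℤ) * N + B i := by
    intro i
    rw [hb]
    exact Int.toNat_of_nonneg (by have := hbpos i; omega)
  have hnp : ∀ i j, i ≠ j → A i * b j ≠ A j * b i := by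
    intro i j hij heq
    have h1 : (A i : ℤ) * b j = (A j : ℤ) * b i := by exact_mod_cast heq
    rw [hbz, hbz] at h1
    have h2 : (A i : ℤ) * B j = A j * B i := by linarith
    have h3 : (A i : ℤ) ∣ A j := (hcop i).dvd_of_dvd_mul_right (Dvd.intro _ h2)
    have h4 : (A j : ℤ) ∣ A i := (hcop j).dvd_of_dvd_mul_right (Dvd.intro _ h2.symm)
    have h5 : A i = A j :=
      Nat.dvd_antisymm (Int.natCast_dvd_natCast.1 h3) (Int.natCast_dvd_natCast.1 h4)
    have h6 : B i = B j := by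
      rw [h5] at h2
      have h7 : (A j : ℤ) ≠ 0 := by exact_mod_cast (hA j).ne'
      exact (mul_left_cancel₀ h7 h2).symm
    exact hij (hinj (by simp [h5, h6]))
  have hadm' : ∀ p : ℕ, p.Prime → ∃ a : ℕ, ∀ i, ¬ p ∣ A i * a + b i := by
    intro p hp
    obtain ⟨n, hn⟩ := hadm p hp
    have hp0 : (p : ℤ) ≠ 0 := by exact_mod_cast hp.ne_zero
    refine ⟨((n - N) % p).toNat, fun i hdvd => hn i ?_⟩
    have h1 : (p : ℤ) ∣ (A i : ℤ) * (((n - N) % p).toNat : ℤ) + b i := by exact_mod_cast hdvd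
    rw [Int.toNat_of_nonneg (Int.emod_nonneg _ hp0), hbz] at h1
    have h3 : (p : ℤ) ∣ (n - N) - (n - N) % p := Int.dvd_self_sub_emod
    have h4 := dvd_add h1 (Dvd.dvd.mul_left h3 (A i : ℤ))
    have h5 : (A i : ℤ) * ((n - N) % p) + ((A i : ℤ) * N + B i) +
        (A i : ℤ) * ((n - N) - (n - N) % p) = (A i : ℤ) * n + B i := by ring
    rwa [h5] at h4
  have hcount := dhl49L A b ⟨fun i => hA i, hnp, hadm'⟩ (1 / 2) (by norm_num)
  -- infinitely many n
  have hinf : {n : ℕ | ∃ i j, i ≠ j ∧ (A i * n + b i).Prime ∧ (A j * n + b j).Prime}.Infinite := by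
    intro hfin
    set S := hfin.toFinset with hS
    have htend : Filter.Tendsto (fun x : ℝ => x ^ (1 - 1 / 2 : ℝ)) Filter.atTop Filter.atTop :=
      tendsto_rpow_atTop (by norm_num)
    obtain ⟨x, hx1, hx2⟩ := ((htend.eventually_gt_atTop (S.card : ℝ)).and hcount).exists
    have h2 : ((goodL A b x).card : ℝ) ≤ S.card := by
      rw [Nat.cast_le]
      apply Finset.card_le_card
      intro n hn
      rw [hS, Set.Finite.mem_toFinset]
      exact (mem_filter.1 hn).2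
    exact absurd (hx1.trans_le (hx2.trans h2)) (lt_irrefl _)
  -- pigeonhole
  have hcover : {n : ℕ | ∃ i j, i ≠ j ∧ (A i * n + b i).Prime ∧ (A j * n + b j).Prime} ⊆
      ⋃ ij : Fin 49 × Fin 49, {n : ℕ | ij.1 ≠ ij.2 ∧ (A ij.1 * n + b ij.1).Prime ∧
        (A ij.2 * n + b ij.2).Prime} := by
    rintro n ⟨i, j, h1, h2, h3⟩
    exact Set.mem_iUnion.2 ⟨(i, j), h1, h2, h3⟩
  have hij : ∃ ij : Fin 49 × Fin 49, {n : ℕ | ij.1 ≠ ij.2 ∧ (A ij.1 * n + b ij.1).Prime ∧
        (A ij.2 * n + b ij.2).Prime}.Infinite := by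
    by_contra hcon
    push Not at hcon
    apply hinf
    exact (Set.finite_iUnion (fun ij => hcon ij)).subset hcover
  obtain ⟨⟨i, j⟩, hij⟩ := hij
  have hne : i ≠ j := by
    obtain ⟨n, hn⟩ := hij.nonempty
    exact hn.1
  refine ⟨i, j, hne, ?_⟩
  have hinj' : Set.InjOn (fun n : ℕ => n + N) {n : ℕ | (i, j).1 ≠ (i, j).2 ∧
      (A (i, j).1 * n + b (i, j).1).Prime ∧ (A (i, j).2 * n + b (i, j).2).Prime} :=
    fun a _ b _ h => by simpa using h
  apply (hij.image hinj').mono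
  rintro _ ⟨n, ⟨_, h2, h3⟩, rfl⟩
  simp only at h2 h3
  refine ⟨⟨_, h2, ?_⟩, ⟨_, h3, ?_⟩⟩
  · push_cast
    rw [hbz]; ring
  · push_cast
    rw [hbz]; ring

end Pool.Agent.H355R2.MT
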