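import Mathlib

set_option autoImplicit false

namespace Pool.Agent.H355R2.Nim

/-- The rules fixing nim multiplication on the natural numbers (nim addition is bitwise
exclusive or, `^^^`). -/
structure IsNimMul (mul : ℕ → ℕ → ℕ) : Prop where
  fermat_lt : ∀ a n : ℕ, n < 2 ^ 2 ^ a → mul (2 ^ 2 ^ a) n = 2 ^ 2 ^ a * n
  fermat_sq : ∀ a : ℕ, mul (2 ^ 2 ^ a) (2 ^ 2 ^ a) = 3 * 2 ^ 2 ^ a / 2
  comm : ∀ x y : ℕ, mul x y = mul y x
  assoc : ∀ x y z : ℕ, mul (mul x y) z = mul x (mul y z)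
  distrib : ∀ x y z : ℕ, mul x (y ^^^ z) = mul x y ^^^ mul x z

section Rules

variable {mul : ℕ → ℕ → ℕ} (H : IsNimMul mul)

include H

theorem mul_zero' (x : ℕ) : mul x 0 = 0 := by
  have h := H.distrib x 0 0
  simpa using h

theorem zero_mul' (x : ℕ) : mul 0 x = 0 := by
  rw [H.comm]; exact mul_zero' H x

theorem distrib' (x y z : ℕ) : mul (y ^^^ z) x = mul y x ^^^ mul z x := by
  rw [H.comm, H.distrib, H.comm x y, H.comm x z]

theorem one_one : mul 1 1 = 1 := by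
  have h1 : mul 2 1 = 2 := by simpa using H.fermat_lt 0 1 (by norm_num)
  have h2 : mul 2 2 = 3 := by simpa using H.fermat_sq 0
  have h3 : mul 3 1 = 3 := by
    calc mul 3 1 = mul (mul 2 2) 1 := by rw [h2]
      _ = mul 2 (mul 2 1) := H.assoc _ _ _
      _ = 3 := by rw [h1, h2]
  have h4 : mul 3 1 = 2 ^^^ mul 1 1 := by
    have : (3 : ℕ) = 2 ^^^ 1 := by decide
    rw [this, distrib' H, h1]
  rw [h3] at h4
  have h5 : 2 ^^^ (3 : ℕ) = 2 ^^^ (2 ^^^ mul 1 1) := by rw [← h4]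
  rw [← Nat.xor_assoc, Nat.xor_self, Nat.zero_xor] at h5
  rw [← h5]; decide

omit H in
theorem F_even (a : ℕ) : 2 ∣ 2 ^ 2 ^ a := dvd_pow_self 2 (by positivity)

omit H in
theorem F_pos (a : ℕ) : 0 < 2 ^ 2 ^ a := by positivity

omit H in
theorem F_succ (a : ℕ) : 2 ^ 2 ^ (a + 1) = 2 ^ 2 ^ a * 2 ^ 2 ^ a := by
  rw [← pow_add]; congr 1; ring

omit H in
theorem F_half (a : ℕ) : 2 ^ 2 ^ a / 2 = 2 ^ (2 ^ a - 1) := by
  have : 2 ^ 2 ^ a = 2 ^ (2 ^ a - 1) * 2 := by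
    rw [← pow_succ]; congr 1
    have : 0 < 2 ^ a := by positivity
    omega
  omega

omit H in
theorem half_lt (a : ℕ) : 2 ^ 2 ^ a / 2 < 2 ^ 2 ^ a :=
  Nat.div_lt_self (F_pos a) (by norm_num)

omit H in
/-- `x = F * x1 + x0` without carries. -/
theorem mul_add_eq_xor (k x1 x0 : ℕ) (h : x0 < 2 ^ k) :
    2 ^ k * x1 + x0 = (2 ^ k * x1) ^^^ x0 := by
  rw [Nat.two_pow_add_eq_or_of_lt h]
  apply Nat.eq_of_testBit_eq
  intro i
  rw [Nat.testBit_or, Nat.testBit_xor]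
  by_cases hi : i < k
  · have : (2 ^ k * x1).testBit i = false := by
      rw [Nat.testBit_two_pow_mul]; simp; omega
    rw [this]; simp
  · have : x0.testBit i = false := by
      apply Nat.testBit_lt_two_pow
      exact lt_of_lt_of_le h (Nat.pow_le_pow_right (by norm_num) (by omega))
    rw [this]; simp

theorem FF (a : ℕ) : mul (2 ^ 2 ^ a) (2 ^ 2 ^ a) = 2 ^ 2 ^ a ^^^ (2 ^ 2 ^ a / 2) := by
  rw [H.fermat_sq]
  have h := mul_add_eq_xor (2 ^ a) 1 (2 ^ 2 ^ a / 2) (half_lt a)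
  rw [mul_one] at h
  rw [← h]
  have := F_even a
  omega

/-- splitting of a number below `F (a+1)` -/
theorem split (a x : ℕ) (hx : x < 2 ^ 2 ^ (a + 1)) :
    ∃ x1 x0, x1 < 2 ^ 2 ^ a ∧ x0 < 2 ^ 2 ^ a ∧ x = mul (2 ^ 2 ^ a) x1 ^^^ x0 := by
  refine ⟨x / 2 ^ 2 ^ a, x % 2 ^ 2 ^ a, ?_, Nat.mod_lt _ (F_pos a), ?_⟩
  · rw [F_succ] at hx
    exact Nat.div_lt_of_lt_mul hx
  · have h1 : x / 2 ^ 2 ^ a < 2 ^ 2 ^ a := by
      rw [F_succ] at hx
      exact Nat.div_lt_of_lt_mul hx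
    rw [H.fermat_lt a _ h1, ← mul_add_eq_xor _ _ _ (Nat.mod_lt _ (F_pos a))]
    exact (Nat.div_add_mod x _).symm

/-- the products of two elements written as `F x1 + x0` -/
theorem expand (a x1 x0 y1 y0 : ℕ) :
    mul (mul (2 ^ 2 ^ a) x1 ^^^ x0) (mul (2 ^ 2 ^ a) y1 ^^^ y0) =
      mul (2 ^ 2 ^ a) (mul x1 y1) ^^^ mul (2 ^ 2 ^ a / 2) (mul x1 y1) ^^^
        mul (2 ^ 2 ^ a) (mul x1 y0) ^^^ mul (2 ^ 2 ^ a) (mul x0 y1) ^^^ mul x0 y0 := by
  have ac1 : mul (mul (2 ^ 2 ^ a) x1) (mul (2 ^ 2 ^ a) y1) =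
      mul (mul (2 ^ 2 ^ a) (2 ^ 2 ^ a)) (mul x1 y1) := by
    rw [H.assoc, H.assoc, ← H.assoc x1, H.comm x1 (2 ^ 2 ^ a), H.assoc]
  have ac2 : mul (mul (2 ^ 2 ^ a) x1) y0 = mul (2 ^ 2 ^ a) (mul x1 y0) := H.assoc _ _ _
  have ac3 : mul x0 (mul (2 ^ 2 ^ a) y1) = mul (2 ^ 2 ^ a) (mul x0 y1) := by
    rw [← H.assoc, H.comm x0, H.assoc]
  rw [H.distrib, distrib' H, distrib' H, ac1, FF H, distrib' H, ac2, ac3]
  simp only [Nat.xor_assoc]
  congr 2
  simp only [← Nat.xor_assoc]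
  congr 1
  exact Nat.xor_comm _ _

theorem closed (a : ℕ) : ∀ x y, x < 2 ^ 2 ^ a → y < 2 ^ 2 ^ a → mul x y < 2 ^ 2 ^ a := by
  induction a with
  | zero =>
    intro x y hx hy
    have hx' : x = 0 ∨ x = 1 := by norm_num at hx; omega
    have hy' : y = 0 ∨ y = 1 := by norm_num at hy; omega
    rcases hx' with rfl | rfl
    · rw [zero_mul' H]; norm_num
    · rcases hy' with rfl | rfl
      · rw [mul_zero' H]; norm_num
      · rw [one_one H]; norm_num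
  | succ a ih =>
    intro x y hx hy
    obtain ⟨x1, x0, hx1, hx0, rfl⟩ := split H a x hx
    obtain ⟨y1, y0, hy1, hy0, rfl⟩ := split H a y hy
    have key : ∀ z, z < 2 ^ 2 ^ a → mul (2 ^ 2 ^ a) z < 2 ^ 2 ^ (a + 1) := by
      intro z hz
      rw [H.fermat_lt a z hz, F_succ]
      exact Nat.mul_lt_mul_of_pos_left hz (F_pos a)
    have key2 : ∀ z, z < 2 ^ 2 ^ a → z < 2 ^ 2 ^ (a + 1) := by
      intro z hz
      refine lt_of_lt_of_le hz (Nat.pow_le_pow_right (by norm_num)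
        (Nat.pow_le_pow_right (by norm_num) (by omega)))
    rw [expand H]
    refine Nat.xor_lt_two_pow (Nat.xor_lt_two_pow (Nat.xor_lt_two_pow (Nat.xor_lt_two_pow
      (key _ (ih _ _ hx1 hy1)) (key2 _ (ih _ _ (half_lt a) (ih _ _ hx1 hy1))))
      (key _ (ih _ _ hx1 hy0))) (key _ (ih _ _ hx0 hy1))) (key2 _ (ih _ _ hx0 hy0))

omit H in
theorem two_dvd_xor {x y : ℕ} (hx : 2 ∣ x) (hy : 2 ∣ y) : 2 ∣ x ^^^ y := by
  have h : (x ^^^ y) % 2 = (x + y) % 2 := Nat.xor_mod_two_eq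
  omega

omit H in
theorem xor_mod_two (x y : ℕ) : (x ^^^ y) % 2 = (x + y) % 2 := Nat.xor_mod_two_eq

theorem mulF_even (a z : ℕ) (hz : z < 2 ^ 2 ^ a) : 2 ∣ mul (2 ^ 2 ^ a) z := by
  rw [H.fermat_lt a z hz]
  exact Dvd.dvd.mul_right (F_even a) z

theorem pow_split (a j : ℕ) (hj : j < 2 ^ a) :
    2 ^ (2 ^ a + j) = mul (2 ^ 2 ^ a) (2 ^ j) := by
  rw [H.fermat_lt a _ (Nat.pow_lt_pow_right (by norm_num) hj), pow_add]

/-- The square of `2 ^ (2 ^ a + j)`. -/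
theorem sq_pow (a j : ℕ) (hj : j < 2 ^ a) :
    mul (2 ^ (2 ^ a + j)) (2 ^ (2 ^ a + j)) =
      mul (2 ^ 2 ^ a) (mul (2 ^ j) (2 ^ j)) ^^^ mul (2 ^ 2 ^ a / 2) (mul (2 ^ j) (2 ^ j)) := by
  have h := expand H a (2 ^ j) 0 (2 ^ j) 0
  rw [pow_split H a j hj]
  simpa [mul_zero' H, zero_mul' H] using h

theorem parity_sq (a j : ℕ) (hj : j < 2 ^ a) :
    mul (2 ^ (2 ^ a + j)) (2 ^ (2 ^ a + j)) % 2 =
      mul (2 ^ 2 ^ a / 2) (mul (2 ^ j) (2 ^ j)) % 2 := by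
  rw [sq_pow H a j hj, xor_mod_two]
  have hj' : 2 ^ j < 2 ^ 2 ^ a := Nat.pow_lt_pow_right (by norm_num) hj
  have := mulF_even H a _ (closed H a _ _ hj' hj')
  omega

theorem half_succ (a : ℕ) : 2 ^ 2 ^ (a + 1) / 2 = mul (2 ^ 2 ^ a) (2 ^ 2 ^ a / 2) := by
  rw [H.fermat_lt a _ (half_lt a), F_succ]
  exact Nat.mul_div_assoc _ (F_even a)

/-- Zero run: for `j < 2 ^ a` the square of `2 ^ (2 ^ (a+1) + j)` is even. -/
theorem zero_run (a j : ℕ) (hj : j < 2 ^ a) :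
    2 ∣ mul (2 ^ (2 ^ (a + 1) + j)) (2 ^ (2 ^ (a + 1) + j)) := by
  have hj2 : j < 2 ^ (a + 1) := by
    have : 2 ^ a ≤ 2 ^ (a + 1) := Nat.pow_le_pow_right (by norm_num) (by omega)
    omega
  apply Nat.dvd_of_mod_eq_zero
  rw [parity_sq H (a + 1) j hj2, half_succ H, H.assoc]
  have hj' : 2 ^ j < 2 ^ 2 ^ a := Nat.pow_lt_pow_right (by norm_num) hj
  exact Nat.mod_eq_zero_of_dvd (mulF_even H a _ (closed H a _ _ (half_lt a)
    (closed H a _ _ hj' hj')))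

/-- inverses of the halves of the Fermat powers -/
theorem exists_inv (a : ℕ) : ∃ g, g < 2 ^ 2 ^ a ∧ mul (2 ^ 2 ^ a / 2) g = 1 := by
  induction a with
  | zero => exact ⟨1, by norm_num, by simpa using one_one H⟩
  | succ a ih =>
    obtain ⟨g, hg, hg1⟩ := ih
    have hF : 2 ^ 2 ^ a < 2 ^ 2 ^ (a + 1) :=
      Nat.pow_lt_pow_right (by norm_num) (Nat.pow_lt_pow_right (by norm_num) (by omega))
    have h1 : (1 : ℕ) < 2 ^ 2 ^ (a + 1) := Nat.one_lt_two_pow (by positivity)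
    have hg' : g < 2 ^ 2 ^ (a + 1) := hg.trans hF
    refine ⟨mul (2 ^ 2 ^ a ^^^ 1) (mul g g), ?_, ?_⟩
    · exact closed H _ _ _ (Nat.xor_lt_two_pow hF h1) (closed H _ _ _ hg' hg')
    · set F := 2 ^ 2 ^ a with hFdef
      have e1 : mul F (F ^^^ 1) = F / 2 := by
        rw [H.distrib, FF H a, H.fermat_lt a 1 (Nat.one_lt_two_pow (by positivity)), mul_one]
        rw [Nat.xor_comm, ← Nat.xor_assoc, Nat.xor_self, Nat.zero_xor]
      rw [half_succ H]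
      have e2 : mul (mul F (F / 2)) (mul (F ^^^ 1) (mul g g)) =
          mul (mul F (F ^^^ 1)) (mul (F / 2) (mul g g)) := by
        rw [H.assoc, H.assoc, ← H.assoc (F / 2) (F ^^^ 1), H.comm (F / 2) (F ^^^ 1), H.assoc]
      rw [e2, e1, ← H.assoc (F / 2) g g, hg1]
      rw [← H.assoc, H.comm (F / 2) 1, H.assoc, hg1, one_one H]

/-- There is an element whose square multiplied by the half of the Fermat power is odd. -/
theorem exists_odd (a : ℕ) : ∃ x, x < 2 ^ 2 ^ (a + 1) ∧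
    mul (2 ^ 2 ^ (a + 1) / 2) (mul x x) % 2 = 1 := by
  obtain ⟨g, hg, hg1⟩ := exists_inv H a
  set F := 2 ^ 2 ^ a with hFdef
  have hF : F < 2 ^ 2 ^ (a + 1) :=
    Nat.pow_lt_pow_right (by norm_num) (Nat.pow_lt_pow_right (by norm_num) (by omega))
  refine ⟨mul F g, closed H _ _ _ hF (hg.trans hF), ?_⟩
  -- (F h) (F g) (F g) = (F F) F (h g) g
  have e1 : mul (2 ^ 2 ^ (a + 1) / 2) (mul (mul F g) (mul F g)) =
      mul (mul (mul F F) F) (mul (mul (F / 2) g) g) := by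
    rw [half_succ H, ← hFdef]
    have c : Std.Commutative mul := ⟨H.comm⟩
    have s : Std.Associative mul := ⟨H.assoc⟩
    ac_rfl
  have e2 : mul (mul F F) F = mul F F ^^^ mul F (F / 2) := by
    rw [FF H a, distrib' H, FF H a, H.comm (F / 2) F]
  rw [e1, hg1, e2, distrib' H, xor_mod_two, FF H a, distrib' H]
  simp only [← hFdef]
  have w : mul 1 g < F := closed H a _ _ (Nat.one_lt_two_pow (by positivity)) hg
  have p1 : 2 ∣ mul F (mul 1 g) := mulF_even H a _ w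
  have p2 : 2 ∣ mul (mul F (F / 2)) (mul 1 g) := by
    rw [H.assoc]
    exact mulF_even H a _ (closed H a _ _ (half_lt a) w)
  have p3 : mul (F / 2) (mul 1 g) = 1 := by
    rw [← H.assoc, H.comm (F / 2) 1, H.assoc, hg1, one_one H]
  have p4 := xor_mod_two (mul F (mul 1 g)) (mul (F / 2) (mul 1 g))
  rw [p3] at p4 ⊢
  omega

/-- infinitely many odd squares of powers of two -/
theorem exists_odd_pow (a : ℕ) : ∃ j, j < 2 ^ (a + 1) ∧
    mul (2 ^ (2 ^ (a + 1) + j)) (2 ^ (2 ^ (a + 1) + j)) % 2 = 1 := by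
  by_contra hcon
  push Not at hcon
  have h0 : ∀ j, j < 2 ^ (a + 1) → 2 ∣ mul (2 ^ 2 ^ (a + 1) / 2) (mul (2 ^ j) (2 ^ j)) := by
    intro j hj
    have := hcon j hj
    rw [parity_sq H (a + 1) j hj] at this
    omega
  have h1 : ∀ k, k ≤ 2 ^ (a + 1) → ∀ x, x < 2 ^ k →
      2 ∣ mul (2 ^ 2 ^ (a + 1) / 2) (mul x x) := by
    intro k
    induction k with
    | zero =>
      intro _ x hx
      have : x = 0 := by simpa using hx
      subst this
      rw [mul_zero' H, mul_zero' H]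
      exact dvd_zero 2
    | succ k ih =>
      intro hk x hx
      by_cases hxk : x < 2 ^ k
      · exact ih (by omega) x hxk
      · have hx' : x - 2 ^ k < 2 ^ k := by
          rw [pow_succ] at hx; omega
        have hxe : x = 2 ^ k ^^^ (x - 2 ^ k) := by
          have := mul_add_eq_xor k 1 (x - 2 ^ k) hx'
          rw [mul_one] at this
          rw [← this]; omega
        have hsq : mul x x = mul (2 ^ k) (2 ^ k) ^^^ mul (x - 2 ^ k) (x - 2 ^ k) := by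
          conv_lhs => rw [hxe]
          rw [H.distrib, distrib' H, distrib' H, H.comm (x - 2 ^ k) (2 ^ k)]
          rw [Nat.xor_assoc, ← Nat.xor_assoc (mul (2 ^ k) (x - 2 ^ k)), Nat.xor_self,
            Nat.zero_xor]
        rw [hsq, H.distrib]
        exact two_dvd_xor (h0 k (by omega)) (ih (by omega) _ hx')
  obtain ⟨x, hx, hodd⟩ := exists_odd H a
  have := h1 (2 ^ (a + 1)) le_rfl x hx
  omega

end Rules

end Pool.Agent.H355R2.Nim
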