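import Mathlib
import Pool.Agent.H355R2.Nim

set_option autoImplicit false

namespace Pool.Agent.H355R2.Nim

/-- A commutative ring with a distinguished element. -/
structure Lvl where
  R : Type
  inst : CommRing R
  c : R

attribute [instance] Lvl.inst

/-- The tower of quadratic extensions of the field with two elements: at each stage adjoin `x`
with `x ^ 2 = x + c`. -/
def lvl : ℕ → Lvl
  | 0 => ⟨ZMod 2, inferInstance, 1⟩
  | m + 1 => ⟨QuadraticAlgebra (lvl m).R (lvl m).c 1, inferInstance, ⟨0, (lvl m).c⟩⟩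

def enc : (m : ℕ) → (lvl m).R → ℕ
  | 0, x => ZMod.val (n := 2) x
  | m + 1, x => 2 ^ 2 ^ m * enc m (QuadraticAlgebra.im x) + enc m (QuadraticAlgebra.re x)

def dec : (m : ℕ) → ℕ → (lvl m).R
  | 0, n => (n : ZMod 2)
  | m + 1, n => (⟨dec m (n % 2 ^ 2 ^ m), dec m (n / 2 ^ 2 ^ m)⟩ :
      QuadraticAlgebra (lvl m).R (lvl m).c 1)

theorem enc_lt : ∀ (m : ℕ) (x : (lvl m).R), enc m x < 2 ^ 2 ^ m
  | 0, x => ZMod.val_lt (n := 2) x
  | m + 1, x => by
    rw [F_succ]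
    have h1 := enc_lt m (QuadraticAlgebra.im x)
    have h0 := enc_lt m (QuadraticAlgebra.re x)
    change 2 ^ 2 ^ m * enc m (QuadraticAlgebra.im x) + enc m (QuadraticAlgebra.re x) < _
    nlinarith

theorem dec_enc : ∀ (m : ℕ) (x : (lvl m).R), dec m (enc m x) = x
  | 0, x => by
    change ((ZMod.val (n := 2) x : ℕ) : ZMod 2) = x
    exact ZMod.natCast_zmod_val (n := 2) x
  | m + 1, x => by
    have h0 := enc_lt m (QuadraticAlgebra.re x)
    change (⟨dec m ((2 ^ 2 ^ m * enc m (QuadraticAlgebra.im x) +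
      enc m (QuadraticAlgebra.re x)) % 2 ^ 2 ^ m), dec m ((2 ^ 2 ^ m *
      enc m (QuadraticAlgebra.im x) + enc m (QuadraticAlgebra.re x)) / 2 ^ 2 ^ m)⟩ :
      QuadraticAlgebra (lvl m).R (lvl m).c 1) = x
    rw [Nat.mul_add_mod, Nat.mod_eq_of_lt h0, Nat.mul_add_div (F_pos m), Nat.div_eq_of_lt h0,
      add_zero, dec_enc m, dec_enc m]
    rfl

theorem enc_dec : ∀ (m n : ℕ), n < 2 ^ 2 ^ m → enc m (dec m n) = n
  | 0, n => fun h => by
    change ZMod.val ((n : ℕ) : ZMod 2) = n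
    rw [ZMod.val_natCast]
    exact Nat.mod_eq_of_lt (by simpa using h)
  | m + 1, n => fun h => by
    rw [F_succ] at h
    change 2 ^ 2 ^ m * enc m (dec m (n / 2 ^ 2 ^ m)) + enc m (dec m (n % 2 ^ 2 ^ m)) = n
    rw [enc_dec m _ (Nat.div_lt_of_lt_mul h), enc_dec m _ (Nat.mod_lt _ (F_pos m))]
    exact Nat.div_add_mod n _

theorem dec_zero (m : ℕ) : dec m 0 = 0 := by
  induction m with
  | zero => change ((0 : ℕ) : ZMod 2) = 0; simp
  | succ m ih =>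
    change (⟨dec m (0 % 2 ^ 2 ^ m), dec m (0 / 2 ^ 2 ^ m)⟩ :
      QuadraticAlgebra (lvl m).R (lvl m).c 1) = 0
    rw [Nat.zero_mod, Nat.zero_div, ih]
    rfl

theorem dec_lift (m n : ℕ) (h : n < 2 ^ 2 ^ m) : dec (m + 1) n =
    (⟨dec m n, 0⟩ : QuadraticAlgebra (lvl m).R (lvl m).c 1) := by
  change (⟨dec m (n % 2 ^ 2 ^ m), dec m (n / 2 ^ 2 ^ m)⟩ :
      QuadraticAlgebra (lvl m).R (lvl m).c 1) = _
  rw [Nat.mod_eq_of_lt h, Nat.div_eq_of_lt h, dec_zero]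

theorem enc_lift (m : ℕ) (x : (lvl m).R) :
    enc (m + 1) (⟨x, 0⟩ : QuadraticAlgebra (lvl m).R (lvl m).c 1) = enc m x := by
  change 2 ^ 2 ^ m * enc m 0 + enc m x = enc m x
  rw [← dec_zero m, enc_dec m 0 (F_pos m)]
  simp

theorem dec_one (m : ℕ) : dec m 1 = 1 := by
  induction m with
  | zero => change ((1 : ℕ) : ZMod 2) = 1; simp
  | succ m ih =>
    rw [dec_lift m 1 (Nat.one_lt_two_pow (by positivity)), ih]
    rfl

theorem dec_xor : ∀ (m a b : ℕ), dec m (a ^^^ b) = dec m a + dec m b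
  | 0, a, b => by
    change (((a ^^^ b : ℕ)) : ZMod 2) = (a : ZMod 2) + (b : ZMod 2)
    rw [← Nat.cast_add]
    exact (ZMod.natCast_eq_natCast_iff' _ _ 2).mpr (xor_mod_two a b)
  | m + 1, a, b => by
    change (⟨dec m ((a ^^^ b) % 2 ^ 2 ^ m), dec m ((a ^^^ b) / 2 ^ 2 ^ m)⟩ :
      QuadraticAlgebra (lvl m).R (lvl m).c 1) =
      (⟨dec m (a % 2 ^ 2 ^ m) + dec m (b % 2 ^ 2 ^ m),
        dec m (a / 2 ^ 2 ^ m) + dec m (b / 2 ^ 2 ^ m)⟩ :
      QuadraticAlgebra (lvl m).R (lvl m).c 1)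
    rw [Nat.xor_mod_two_pow, Nat.xor_div_two_pow, dec_xor m, dec_xor m]

/-- multiplication at level `m` -/
def N (m a b : ℕ) : ℕ := enc m (dec m a * dec m b)

theorem N_succ (m a b : ℕ) (ha : a < 2 ^ 2 ^ m) (hb : b < 2 ^ 2 ^ m) :
    N (m + 1) a b = N m a b := by
  unfold N
  rw [dec_lift m a ha, dec_lift m b hb, ← enc_lift m]
  congr 1
  change (⟨dec m a, 0⟩ : QuadraticAlgebra (lvl m).R (lvl m).c 1) * ⟨dec m b, 0⟩ =
    ⟨dec m a * dec m b, 0⟩
  ext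
  · simp
  · simp

theorem F_mono {m k : ℕ} (h : m ≤ k) : 2 ^ 2 ^ m ≤ 2 ^ 2 ^ k :=
  Nat.pow_le_pow_right (by norm_num) (Nat.pow_le_pow_right (by norm_num) h)

theorem N_eq (m k a b : ℕ) (hmk : m ≤ k) (ha : a < 2 ^ 2 ^ m) (hb : b < 2 ^ 2 ^ m) :
    N k a b = N m a b := by
  induction k, hmk using Nat.le_induction with
  | base => rfl
  | succ k hk ih =>
    rw [N_succ k a b (ha.trans_le (F_mono hk)) (hb.trans_le (F_mono hk)), ih]

theorem lt_F (n : ℕ) : n < 2 ^ 2 ^ n :=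
  lt_trans Nat.lt_two_pow_self (Nat.pow_lt_pow_right (by norm_num) Nat.lt_two_pow_self)

/-- nim multiplication -/
def nimMul (a b : ℕ) : ℕ := N (max a b) a b

theorem nimMul_eq (m a b : ℕ) (ha : a < 2 ^ 2 ^ m) (hb : b < 2 ^ 2 ^ m) :
    nimMul a b = N m a b := by
  unfold nimMul
  have h1 : a < 2 ^ 2 ^ (max a b) := (lt_F a).trans_le (F_mono (le_max_left _ _))
  have h2 : b < 2 ^ 2 ^ (max a b) := (lt_F b).trans_le (F_mono (le_max_right _ _))
  rcases le_total m (max a b) with h | h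
  · exact N_eq _ _ _ _ h ha hb
  · exact (N_eq _ _ _ _ h h1 h2).symm

theorem enc_add (m : ℕ) (x y : (lvl m).R) : enc m (x + y) = enc m x ^^^ enc m y := by
  have h : x + y = dec m (enc m x ^^^ enc m y) := by rw [dec_xor, dec_enc, dec_enc]
  rw [h, enc_dec m _ (Nat.xor_lt_two_pow (enc_lt m x) (enc_lt m y))]

theorem enc_c (m : ℕ) : enc m (lvl m).c = 2 ^ 2 ^ m / 2 := by
  induction m with
  | zero => change ZMod.val (1 : ZMod 2) = _; decide
  | succ m ih =>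
    change 2 ^ 2 ^ m * enc m (lvl m).c + enc m 0 = _
    rw [ih, ← dec_zero m, enc_dec m 0 (F_pos m), add_zero, F_succ]
    exact (Nat.mul_div_assoc _ (F_even m)).symm

theorem dec_F (a : ℕ) : dec (a + 1) (2 ^ 2 ^ a) =
    (⟨0, 1⟩ : QuadraticAlgebra (lvl a).R (lvl a).c 1) := by
  change (⟨dec a (2 ^ 2 ^ a % 2 ^ 2 ^ a), dec a (2 ^ 2 ^ a / 2 ^ 2 ^ a)⟩ :
      QuadraticAlgebra (lvl a).R (lvl a).c 1) = _
  rw [Nat.mod_self, Nat.div_self (F_pos a), dec_zero, dec_one]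

theorem isNimMul_nimMul : IsNimMul nimMul where
  fermat_lt := by
    intro a n hn
    have hF : 2 ^ 2 ^ a < 2 ^ 2 ^ (a + 1) :=
      Nat.pow_lt_pow_right (by norm_num) (Nat.pow_lt_pow_right (by norm_num) (by omega))
    rw [nimMul_eq (a + 1) _ _ hF (hn.trans hF)]
    unfold N
    have this : (⟨0, 1⟩ : QuadraticAlgebra (lvl a).R (lvl a).c 1) * ⟨dec a n, 0⟩ =
      ⟨0, dec a n⟩ := by
      ext <;> simp
    have key : dec (a + 1) (2 ^ 2 ^ a) * dec (a + 1) n =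
      (⟨0, dec a n⟩ : QuadraticAlgebra (lvl a).R (lvl a).c 1) := by
      rw [dec_F, dec_lift a n hn]; exact this
    rw [key]
    change 2 ^ 2 ^ a * enc a (dec a n) + enc a 0 = _
    rw [enc_dec a n hn, ← dec_zero a, enc_dec a 0 (F_pos a), add_zero]
  fermat_sq := by
    intro a
    have hF : 2 ^ 2 ^ a < 2 ^ 2 ^ (a + 1) :=
      Nat.pow_lt_pow_right (by norm_num) (Nat.pow_lt_pow_right (by norm_num) (by omega))
    rw [nimMul_eq (a + 1) _ _ hF hF]
    unfold N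
    have this : (⟨0, 1⟩ : QuadraticAlgebra (lvl a).R (lvl a).c 1) * ⟨0, 1⟩ =
      ⟨(lvl a).c, 1⟩ := by
      ext <;> simp
    have key : dec (a + 1) (2 ^ 2 ^ a) * dec (a + 1) (2 ^ 2 ^ a) =
      (⟨(lvl a).c, 1⟩ : QuadraticAlgebra (lvl a).R (lvl a).c 1) := by
      rw [dec_F]; exact this
    rw [key]
    change 2 ^ 2 ^ a * enc a 1 + enc a (lvl a).c = _
    rw [enc_c, ← dec_one a, enc_dec a 1 (Nat.one_lt_two_pow (by positivity)), mul_one]
    have := F_even a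
    omega
  comm := by
    intro x y
    unfold nimMul N
    rw [max_comm, mul_comm]
  assoc := by
    intro x y z
    obtain ⟨m, hx, hy, hz⟩ : ∃ m, x < 2 ^ 2 ^ m ∧ y < 2 ^ 2 ^ m ∧ z < 2 ^ 2 ^ m := by
      refine ⟨x + y + z, (lt_F x).trans_le (F_mono (by omega)),
        (lt_F y).trans_le (F_mono (by omega)), (lt_F z).trans_le (F_mono (by omega))⟩
    have l1 : N m x y < 2 ^ 2 ^ m := enc_lt m _
    have l2 : N m y z < 2 ^ 2 ^ m := enc_lt m _
    rw [nimMul_eq m x y hx hy, nimMul_eq m y z hy hz, nimMul_eq m _ z l1 hz,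
      nimMul_eq m x _ hx l2]
    unfold N
    rw [dec_enc, dec_enc, mul_assoc]
  distrib := by
    intro x y z
    obtain ⟨m, hx, hy, hz⟩ : ∃ m, x < 2 ^ 2 ^ m ∧ y < 2 ^ 2 ^ m ∧ z < 2 ^ 2 ^ m := by
      refine ⟨x + y + z, (lt_F x).trans_le (F_mono (by omega)),
        (lt_F y).trans_le (F_mono (by omega)), (lt_F z).trans_le (F_mono (by omega))⟩
    rw [nimMul_eq m x y hx hy, nimMul_eq m x z hx hz,
      nimMul_eq m x _ hx (Nat.xor_lt_two_pow hy hz)]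
    unfold N
    rw [dec_xor, mul_add, enc_add]

end Pool.Agent.H355R2.Nim
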