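import Mathlib
import Pool.Agent.H355R2.Nim

set_option autoImplicit false

namespace Pool.Agent.H355R2.Nim

/-- The 2-kernel of an integer sequence `s`: all sequences `n ↦ s (2 ^ e * n + r)` with
`0 ≤ r < 2 ^ e`. -/
def kernel (s : ℕ → ℤ) : Set (ℕ → ℤ) :=
  {t | ∃ e r : ℕ, r < 2 ^ e ∧ t = fun n => s (2 ^ e * n + r)}

/-- A sequence is 2-regular if its 2-kernel generates a finitely generated `ℤ`-module. -/
def IsTwoRegular (s : ℕ → ℤ) : Prop := (Submodule.span ℤ (kernel s)).FG

/-- The 2-kernel of a two-dimensional array. -/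
def tableKernel (t : ℕ → ℕ → ℤ) : Set (ℕ → ℕ → ℤ) :=
  {u | ∃ e r r' : ℕ, r < 2 ^ e ∧ r' < 2 ^ e ∧
    u = fun m n => t (2 ^ e * m + r) (2 ^ e * n + r')}

/-- A two-dimensional array is 2-regular if its 2-kernel generates a finitely generated
`ℤ`-module. -/
def IsTwoRegularTable (t : ℕ → ℕ → ℤ) : Prop := (Submodule.span ℤ (tableKernel t)).FG

theorem recur {s : ℕ → ℤ} (h : IsTwoRegular s) :
    ∃ e : ℕ, (fun n => s (2 ^ e * n)) ∈
      Submodule.span ℤ {t : ℕ → ℤ | ∃ l, l < e ∧ t = fun n => s (2 ^ l * n)} := by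
  set S := Submodule.span ℤ (kernel s) with hS
  have hfin : Module.Finite ℤ S := Module.Finite.iff_fg.mpr h
  have hN : IsNoetherian ℤ S := isNoetherian_of_isNoetherianRing_of_finite ℤ S
  let N : ℕ → Submodule ℤ (ℕ → ℤ) := fun e =>
    Submodule.span ℤ {t : ℕ → ℤ | ∃ l, l < e ∧ t = fun n => s (2 ^ l * n)}
  have hmono : Monotone N := by
    intro a b hab
    apply Submodule.span_mono
    rintro t ⟨l, hl, rfl⟩
    exact ⟨l, by omega, rfl⟩
  let f : ℕ →o Submodule ℤ S :=
    ⟨fun e => (N e).comap S.subtype, fun a b hab => Submodule.comap_mono (hmono hab)⟩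
  obtain ⟨n, hn⟩ := monotone_stabilizes_iff_noetherian.mpr hN f
  refine ⟨n, ?_⟩
  have hmem : (fun k => s (2 ^ n * k)) ∈ S := by
    apply Submodule.subset_span
    exact ⟨n, 0, by positivity, by simp⟩
  have h1 : (⟨_, hmem⟩ : S) ∈ f (n + 1) := by
    change (fun k => s (2 ^ n * k)) ∈ N (n + 1)
    exact Submodule.subset_span ⟨n, by omega, rfl⟩
  rw [← hn (n + 1) (by omega)] at h1
  exact h1

/-- a 2-regular sequence with a long enough run of even values at powers of two has only even
values at powers of two from then on -/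
theorem even_after {s : ℕ → ℤ} (h : IsTwoRegular s) :
    ∃ e : ℕ, ∀ i : ℕ, (∀ l, l < e → 2 ∣ s (2 ^ (i + l))) → ∀ k, i ≤ k → 2 ∣ s (2 ^ k) := by
  obtain ⟨e, he⟩ := recur h
  refine ⟨e, ?_⟩
  have step : ∀ i : ℕ, (∀ l, l < e → 2 ∣ s (2 ^ (i + l))) → 2 ∣ s (2 ^ (i + e)) := by
    intro i hi
    have key : ∀ t ∈ Submodule.span ℤ {t : ℕ → ℤ | ∃ l, l < e ∧ t = fun n => s (2 ^ l * n)},
        (2 : ℤ) ∣ t (2 ^ i) := by
      intro t ht
      induction ht using Submodule.span_induction with
      | mem t ht =>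
        obtain ⟨l, hl, rfl⟩ := ht
        have := hi l hl
        simpa [pow_add, mul_comm] using this
      | zero => simp
      | add x y _ _ hx hy => simpa using dvd_add hx hy
      | smul a x _ hx => simpa using Dvd.dvd.mul_left hx a
    have := key _ he
    simpa [pow_add, mul_comm] using this
  intro i hi
  have run : ∀ j, ∀ l, l < e → 2 ∣ s (2 ^ (i + j + l)) := by
    intro j
    induction j with
    | zero => simpa using hi
    | succ j ih =>
      intro l hl
      by_cases hl' : l + 1 < e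
      · have := ih (l + 1) hl'
        rwa [show i + (j + 1) + l = i + j + (l + 1) by ring]
      · have := step (i + j) ih
        rwa [show i + (j + 1) + l = i + j + e by omega]
  intro k hk
  have := step k (by
    have := run (k - i)
    rwa [show i + (k - i) = k by omega] at this)
  rcases Nat.eq_zero_or_pos e with he0 | he0
  · subst he0; simpa using this
  · have := run (k - i) 0 he0
    rwa [show i + (k - i) + 0 = k by omega] at this

theorem not_regular {mul : ℕ → ℕ → ℕ} (H : IsNimMul mul) :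
    ¬ IsTwoRegular (fun n => (mul n n : ℤ)) := by
  intro h
  obtain ⟨e, he⟩ := even_after h
  have h1 := he (2 ^ (e + 1)) (by
    intro l hl
    have hl2 : l < 2 ^ e := lt_trans hl Nat.lt_two_pow_self
    have := zero_run H e l hl2
    exact_mod_cast this)
  obtain ⟨j, hj, hodd⟩ := exists_odd_pow H e
  have h2 := h1 (2 ^ (e + 1) + j) (by omega)
  have h3 : 2 ∣ mul (2 ^ (2 ^ (e + 1) + j)) (2 ^ (2 ^ (e + 1) + j)) := by exact_mod_cast h2
  omega

/-- The diagonal of a 2-regular table is 2-regular. -/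
theorem diag_regular {t : ℕ → ℕ → ℤ} (h : IsTwoRegularTable t) :
    IsTwoRegular (fun n => t n n) := by
  let D : (ℕ → ℕ → ℤ) →ₗ[ℤ] (ℕ → ℤ) :=
    { toFun := fun u n => u n n
      map_add' := fun _ _ => rfl
      map_smul' := fun _ _ => rfl }
  have hfg : ((Submodule.span ℤ (tableKernel t)).map D).FG := Submodule.FG.map D h
  have hle : Submodule.span ℤ (kernel fun n => t n n) ≤
      (Submodule.span ℤ (tableKernel t)).map D := by
    rw [Submodule.span_le]
    rintro u ⟨e, r, hr, rfl⟩
    refine ⟨fun m n => t (2 ^ e * m + r) (2 ^ e * n + r), ?_, rfl⟩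
    exact Submodule.subset_span ⟨e, r, r, hr, hr, rfl⟩
  exact Submodule.FG.of_le hfg hle

theorem not_regular_table {mul : ℕ → ℕ → ℕ} (H : IsNimMul mul) :
    ¬ IsTwoRegularTable (fun m n => (mul m n : ℤ)) := fun h =>
  not_regular H (diag_regular h)

end Pool.Agent.H355R2.Nim
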