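import Mathlib
import Pool.Agent.H355R2.Nim

set_option autoImplicit false

namespace Pool.Agent.H355R2.Nim

/-- The rules determine nim multiplication. -/
theorem unique_lt {mul mul' : ℕ → ℕ → ℕ} (H : IsNimMul mul) (H' : IsNimMul mul') (a : ℕ) :
    ∀ x y, x < 2 ^ 2 ^ a → y < 2 ^ 2 ^ a → mul x y = mul' x y := by
  induction a with
  | zero =>
    intro x y hx hy
    have hx' : x = 0 ∨ x = 1 := by norm_num at hx; omega
    have hy' : y = 0 ∨ y = 1 := by norm_num at hy; omega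
    rcases hx' with rfl | rfl
    · rw [zero_mul' H, zero_mul' H']
    · rcases hy' with rfl | rfl
      · rw [mul_zero' H, mul_zero' H']
      · rw [one_one H, one_one H']
  | succ a ih =>
    intro x y hx hy
    obtain ⟨x1, x0, hx1, hx0, rfl⟩ := split H a x hx
    obtain ⟨y1, y0, hy1, hy0, rfl⟩ := split H a y hy
    have key : ∀ z, z < 2 ^ 2 ^ a → mul (2 ^ 2 ^ a) z = mul' (2 ^ 2 ^ a) z := by
      intro z hz
      rw [H.fermat_lt a z hz, H'.fermat_lt a z hz]
    rw [expand H]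
    rw [key x1 hx1, key y1 hy1, expand H', ih x1 y1 hx1 hy1, ih x1 y0 hx1 hy0,
      ih x0 y1 hx0 hy1, ih x0 y0 hx0 hy0, key _ (closed H' a _ _ hx1 hy1),
      key _ (closed H' a _ _ hx1 hy0), key _ (closed H' a _ _ hx0 hy1),
      ih _ _ (half_lt a) (closed H' a _ _ hx1 hy1)]

theorem unique {mul mul' : ℕ → ℕ → ℕ} (H : IsNimMul mul) (H' : IsNimMul mul') :
    mul = mul' := by
  funext x y
  have h : ∀ n : ℕ, n < 2 ^ 2 ^ n := fun n =>
    lt_trans Nat.lt_two_pow_self (Nat.pow_lt_pow_right (by norm_num) Nat.lt_two_pow_self)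
  have hm : ∀ {m k : ℕ}, m ≤ k → 2 ^ 2 ^ m ≤ 2 ^ 2 ^ k := fun h =>
    Nat.pow_le_pow_right (by norm_num) (Nat.pow_le_pow_right (by norm_num) h)
  exact unique_lt H H' (x + y) x y ((h x).trans_le (hm (by omega)))
    ((h y).trans_le (hm (by omega)))

end Pool.Agent.H355R2.Nim
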