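import Pool.Agent.H362R2.CM.Pairs

/-!
# A quarter of the ratios of any large set of positive rationals are ratios of shifted primes
-/

set_option autoImplicit false

namespace Pool.Agent.H355R2.RQ

open Finset

/-- `z.1 / z.2` has infinitely many representations as `(p + c) / (q + c)` -/
def Rp (c : ℤ) (z : ℚ × ℚ) : Prop :=
  {w : ℕ × ℕ | w.1.Prime ∧ w.2.Prime ∧ ((w.1 : ℚ) + c) / ((w.2 : ℚ) + c) = z.1 / z.2}.Infinite

open Classical in
theorem quarter_ratio (c : ℤ) (hc : c = 1 ∨ c = -1) (ε : ℝ) (hε : 0 < ε) : ∃ N : ℕ,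
    ∀ S : Finset ℚ, (∀ x ∈ S, 0 < x) → N ≤ S.card →
      (1 / 4 - ε) * (S.card : ℝ) ^ 2 ≤
        (((S ×ˢ S).filter (fun z => z.1 ≠ z.2 ∧ Rp c z)).card : ℝ) := by
  obtain ⟨N, hN⟩ := Pool.Agent.H362R2.CM.equation_quarter (ε / 2) (by positivity)
  obtain ⟨N2, hN2⟩ := exists_nat_ge (2 / ε)
  refine ⟨max N N2, fun S hS hcard => ?_⟩
  have hSN : N ≤ S.card := (le_max_left _ _).trans hcard
  have hSN2 : (2 / ε : ℝ) ≤ S.card := hN2.trans (by exact_mod_cast (le_max_right _ _).trans hcard)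
  set M : ℕ := ∏ x ∈ S, x.den with hM
  have hMpos : 0 < M := Finset.prod_pos fun x _ => x.den_pos
  have hMq : (0 : ℚ) < M := by exact_mod_cast hMpos
  set a : ℚ → ℤ := fun x => (M * x).num with ha
  have haq : ∀ x ∈ S, (a x : ℚ) = M * x := by
    intro x hx
    obtain ⟨k, hk⟩ : x.den ∣ M := Finset.dvd_prod_of_mem _ hx
    have h1 : (M : ℚ) * x = ((k * x.num : ℤ) : ℚ) := by
      rw [hk]
      push_cast
      have : (x.den : ℚ) * x = x.num := Rat.den_mul_eq_num x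
      calc (x.den : ℚ) * k * x = k * (x.den * x) := by ring
        _ = _ := by rw [this]
    rw [ha]
    show (((M : ℚ) * x).num : ℚ) = M * x
    rw [h1, Rat.num_intCast]
  have hapos : ∀ x ∈ S, 0 < a x := by
    intro x hx
    have h1 : (0 : ℚ) < a x := by
      rw [haq x hx]
      exact mul_pos hMq (hS x hx)
    exact_mod_cast h1
  set φ : ℚ → ℤ × ℤ := fun x => (a x, -c) with hφ
  have hφinj : Set.InjOn φ S := by
    intro x hx y hy h
    have h1 : a x = a y := (Prod.ext_iff.1 h).1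
    have h2 : (M : ℚ) * x = M * y := by rw [← haq x hx, ← haq y hy, h1]
    exact mul_left_cancel₀ hMq.ne' h2
  set V : Finset (ℤ × ℤ) := S.image φ with hV
  have hVcard : V.card = S.card := Finset.card_image_of_injOn hφinj
  have hVpos : ∀ f ∈ V, 0 < f.1 := by
    intro f hf
    obtain ⟨x, hx, rfl⟩ := Finset.mem_image.1 hf
    exact hapos x hx
  have hVadm : ∀ f : Fin 5 → ℤ × ℤ, (∀ i, f i ∈ V) →
      ∀ p : ℕ, p.Prime → ∃ n : ℤ, ∀ i, ¬ ((p : ℤ) ∣ (f i).1 * n + (f i).2) := by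
    intro f hf p hp
    refine ⟨0, fun i hdvd => ?_⟩
    obtain ⟨x, hx, hxf⟩ := Finset.mem_image.1 (hf i)
    rw [← hxf] at hdvd
    have h1 : (p : ℤ) ∣ -c := by simpa [hφ] using hdvd
    have h2 : (p : ℤ) ∣ 1 := by
      rcases hc with rfl | rfl
      · exact (dvd_neg.1 h1)
      · simpa using h1
    exact hp.one_lt.ne' (by exact_mod_cast Int.eq_one_of_dvd_one (by positivity) h2)
  have hq := hN V hVpos hVadm (by rw [hVcard]; exact hSN)
  rw [hVcard] at hq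
  -- the good pairs
  set G := (S ×ˢ S).filter (fun z => Rp c z) with hG
  have hle : ({x : (ℤ × ℤ) × (ℤ × ℤ) | x.1 ∈ V ∧ x.2 ∈ V ∧
        {y : ℕ × ℕ | y.1.Prime ∧ y.2.Prime ∧
          x.1.1 * (y.1 : ℤ) - x.2.1 * (y.2 : ℤ) = x.1.1 * x.2.2 - x.2.1 * x.1.2}.Infinite}.ncard : ℕ)
        ≤ G.card := by
    have hsub : {x : (ℤ × ℤ) × (ℤ × ℤ) | x.1 ∈ V ∧ x.2 ∈ V ∧
        {y : ℕ × ℕ | y.1.Prime ∧ y.2.Prime ∧
          x.1.1 * (y.1 : ℤ) - x.2.1 * (y.2 : ℤ) = x.1.1 * x.2.2 - x.2.1 * x.1.2}.Infinite} ⊆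
        (G.image (fun z : ℚ × ℚ => (φ z.1, φ z.2)) : Set ((ℤ × ℤ) × (ℤ × ℤ))) := by
      rintro ⟨f, g⟩ ⟨hf, hg, hinf⟩
      obtain ⟨x, hx, rfl⟩ := Finset.mem_image.1 hf
      obtain ⟨y, hy, rfl⟩ := Finset.mem_image.1 hg
      rw [Finset.coe_image]
      refine ⟨(x, y), ?_, rfl⟩
      rw [Finset.mem_coe, hG, Finset.mem_filter, Finset.mem_product]
      refine ⟨⟨hx, hy⟩, ?_⟩
      have hinj : Set.InjOn Prod.swap {w : ℕ × ℕ | w.1.Prime ∧ w.2.Prime ∧
          a x * (w.1 : ℤ) - a y * (w.2 : ℤ) = a x * (-c) - a y * (-c)} :=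
        Prod.swap_injective.injOn
      refine (Set.Infinite.image hinj hinf).mono ?_
      rintro _ ⟨⟨q, p⟩, ⟨hq1, hp1, heq⟩, rfl⟩
      refine ⟨hp1, hq1, ?_⟩
      simp only [Prod.swap_prod_mk] at heq hq1 hp1 ⊢
      have hq0 : (0 : ℚ) < (q : ℚ) + c := by
        have h2 : (2 : ℚ) ≤ q := by exact_mod_cast hq1.two_le
        rcases hc with rfl | rfl
        · push_cast; linarith
        · push_cast; linarith
      have hy0 : (0 : ℚ) < y := hS y hy
      have h1 : (a x : ℚ) * q - a y * p = a x * (-c) - a y * (-c) := by exact_mod_cast heq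
      rw [haq x hx, haq y hy] at h1
      have h2 : (M : ℚ) * (x * (q + c)) = M * (y * (p + c)) := by linarith
      have h3 := mul_left_cancel₀ hMq.ne' h2
      rw [div_eq_div_iff hq0.ne' hy0.ne']
      linarith
    calc _ ≤ ((G.image (fun z : ℚ × ℚ => (φ z.1, φ z.2)) : Finset ((ℤ × ℤ) × (ℤ × ℤ))) :
          Set ((ℤ × ℤ) × (ℤ × ℤ))).ncard := Set.ncard_le_ncard hsub (Finset.finite_toSet _)
      _ = (G.image (fun z : ℚ × ℚ => (φ z.1, φ z.2))).card := Set.ncard_coe_finset _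
      _ ≤ G.card := Finset.card_image_le
  have hsplit : G.card ≤ ((S ×ˢ S).filter (fun z => z.1 ≠ z.2 ∧ Rp c z)).card + S.card := by
    have h1 : G ⊆ (S ×ˢ S).filter (fun z => z.1 ≠ z.2 ∧ Rp c z) ∪ S.image (fun x => (x, x)) := by
      rintro ⟨x, y⟩ hxy
      rw [hG, Finset.mem_filter, Finset.mem_product] at hxy
      rw [Finset.mem_union, Finset.mem_filter, Finset.mem_product]
      by_cases h : x = y
      · right
        subst h
        exact Finset.mem_image.2 ⟨x, hxy.1.1, rfl⟩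
      · left
        exact ⟨hxy.1, h, hxy.2⟩
    exact (Finset.card_le_card h1).trans ((Finset.card_union_le _ _).trans
      (Nat.add_le_add_left Finset.card_image_le _))
  have h1 : (1 / 4 - ε / 2) * (S.card : ℝ) ^ 2 ≤
      (((S ×ˢ S).filter (fun z => z.1 ≠ z.2 ∧ Rp c z)).card : ℝ) + S.card := by
    refine hq.trans ?_
    exact_mod_cast hle.trans hsplit
  have h2 : (S.card : ℝ) ≤ ε / 2 * (S.card : ℝ) ^ 2 := by
    have h3 : 1 ≤ ε / 2 * (S.card : ℝ) := by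
      rw [div_le_iff₀ hε] at hSN2
      linarith
    have h4 : (0 : ℝ) ≤ S.card := Nat.cast_nonneg _
    nlinarith
  linarith

end Pool.Agent.H355R2.RQ
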