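import Mathlib
import Pool.Agent.H355R2.MTBridge
import Pool.Agent.Helper856.Pair.RamCol

set_option autoImplicit false

/-! Ratios of shifted primes: the set of rationals with infinitely many representations is
multiplicatively syndetic. -/

namespace Pool.Agent.H355R2.Schinzel

open Finset

/-- infinitely many pairs of primes with `(p - e) / (q - e) = r` -/
def Rep (e : ℤ) (r : ℚ) : Prop :=
  {z : ℕ × ℕ | z.1.Prime ∧ z.2.Prime ∧ ((z.1 : ℚ) - e) / ((z.2 : ℚ) - e) = r}.Infinite

theorem Rep.inv {e : ℤ} {r : ℚ} (h : Rep e r) : Rep e r⁻¹ := by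
  have h1 := h.image (f := Prod.swap) (Prod.swap_injective.injOn)
  apply h1.mono
  rintro z ⟨w, ⟨h2, h3, h4⟩, rfl⟩
  refine ⟨h3, h2, ?_⟩
  rw [← h4, inv_div]
  rfl

theorem rep_one (e : ℤ) (he : e = 1 ∨ e = -1) : Rep e 1 := by
  have h1 := Nat.infinite_setOfPred_prime.image (f := fun p : ℕ => (p, p)) (fun a _ b _ h => by
    simpa using h)
  apply h1.mono
  rintro z ⟨p, hp, rfl⟩
  refine ⟨hp, hp, ?_⟩
  apply div_self
  have h2 : (2 : ℚ) ≤ p := by exact_mod_cast Nat.Prime.two_le hp
  rcases he with rfl | rfl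
  · push_cast; linarith
  · push_cast; linarith

theorem exists_scale {ι : Type} [Fintype ι] (x : ι → ℚ) (hx : ∀ i, 0 < x i) :
    ∃ D : ℕ, 0 < D ∧ ∀ i, ∃ a : ℕ, 0 < a ∧ (a : ℚ) = x i * D := by
  classical
  refine ⟨∏ i, (x i).den, Finset.prod_pos fun i _ => (x i).den_pos, fun i => ?_⟩
  obtain ⟨c, hc⟩ : (x i).den ∣ ∏ i, (x i).den := Finset.dvd_prod_of_mem _ (mem_univ i)
  have hc0 : 0 < c := by
    rcases Nat.eq_zero_or_pos c with h | h
    · exfalso
      rw [h, mul_zero] at hc
      exact (Finset.prod_pos fun i _ => (x i).den_pos).ne' hc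
    · exact h
  have hn : 0 < (x i).num := Rat.num_pos.2 (hx i)
  refine ⟨(x i).num.toNat * c, Nat.mul_pos (by omega) hc0, ?_⟩
  rw [hc]
  push_cast
  have h1 : (((x i).num.toNat : ℕ) : ℚ) = ((x i).num : ℚ) := by
    have : (((x i).num.toNat : ℕ) : ℤ) = (x i).num := Int.toNat_of_nonneg hn.le
    exact_mod_cast this
  rw [h1, ← mul_assoc, Rat.mul_den_eq_num]

theorem mt_ratio (k : ℕ) (hk : MT.MaynardTao k) (e : ℤ) (he : e = 1 ∨ e = -1) (x : Fin k → ℚ)
    (hx : ∀ i, 0 < x i) (hinj : Function.Injective x) : ∃ i j, i ≠ j ∧ Rep e (x i / x j) := by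
  obtain ⟨D, hD, hA⟩ := exists_scale x hx
  choose A hA0 hA1 using hA
  obtain ⟨i, j, hij, hinf⟩ := hk A (fun _ => e) hA0 (by
    intro i j h
    simp only [Prod.mk.injEq, and_true] at h
    apply hinj
    have h1 : x i * D = x j * D := by rw [← hA1, ← hA1, h]
    exact mul_right_cancel₀ (by exact_mod_cast hD.ne') h1) (by
    intro p hp
    refine ⟨0, fun i h => ?_⟩
    rw [mul_zero, zero_add] at h
    have h1 : (p : ℤ) ∣ 1 := by
      rcases he with rfl | rfl
      · exact h
      · exact (dvd_neg).1 h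
    exact hp.one_lt.ne' (by
      have := Int.natCast_dvd_natCast.1 (by simpa using h1 : (p : ℤ) ∣ ((1 : ℕ) : ℤ))
      exact Nat.dvd_one.1 this))
  refine ⟨i, j, hij, ?_⟩
  have h1 := hinf.image (f := fun n : ℕ => (((A i * n + e : ℤ)).toNat, ((A j * n + e : ℤ)).toNat))
    (by
      rintro n ⟨⟨p, hp, h2⟩, -⟩ m ⟨⟨p', hp', h2'⟩, -⟩ h
      simp only [Prod.mk.injEq] at h
      have h3 := h.1
      rw [h2, h2', Int.toNat_natCast, Int.toNat_natCast] at h3
      have h4 : (A i * n + e : ℤ) = A i * m + e := by rw [h2, h2', h3]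
      have h5 : (A i : ℤ) * n = A i * m := by linarith
      have h6 : (A i : ℤ) ≠ 0 := by exact_mod_cast (hA0 i).ne'
      exact_mod_cast mul_left_cancel₀ h6 h5)
  apply h1.mono
  rintro z ⟨n, ⟨⟨p, hp, h2⟩, ⟨q, hq, h3⟩⟩, rfl⟩
  simp only
  rw [h2, h3, Int.toNat_natCast, Int.toNat_natCast]
  refine ⟨hp, hq, ?_⟩
  simp only
  have hn : n ≠ 0 := by
    rintro rfl
    have hp2 := hp.two_le
    have hp3 : (2 : ℤ) ≤ p := by exact_mod_cast hp2
    rw [Nat.cast_zero, mul_zero, zero_add] at h2
    rcases he with he | he <;> omega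
  have e1 : (p : ℚ) = A i * n + e := by exact_mod_cast h2.symm
  have e2 : (q : ℚ) = A j * n + e := by exact_mod_cast h3.symm
  rw [e1, e2, add_sub_cancel_right, add_sub_cancel_right, hA1, hA1]
  have hn' : (n : ℚ) ≠ 0 := by exact_mod_cast hn
  have hD' : (D : ℚ) ≠ 0 := by exact_mod_cast hD.ne'
  have hj := (hx j).ne'
  field_simp

/-- both forms -/
def Both (r : ℚ) : Prop := Rep (-1) r ∧ Rep 1 r

theorem Both.inv {r : ℚ} (h : Both r) : Both r⁻¹ := ⟨h.1.inv, h.2.inv⟩

theorem syndetic (k : ℕ) (hk : MT.MaynardTao k) :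
    ∃ E : Finset ℕ, (∀ e ∈ E, 0 < e) ∧ ∀ x : ℚ, 0 < x → ∃ e ∈ E, Both (x * e) := by
  classical
  by_contra hcon
  push Not at hcon
  obtain ⟨N, hN⟩ := Pool.Agent.Helper856.Cw.RamCol.ramsey_col Bool k
  -- a long sequence of rationals with all ratios bad
  have hseq : ∀ m : ℕ, ∃ x : ℕ → ℚ, (∀ i < m, 0 < x i) ∧
      ∀ i j, i < j → j < m → ¬ Both (x j / x i) := by
    intro m
    induction m with
    | zero => exact ⟨fun _ => 0, by simp, by simp⟩
    | succ m ih =>
      obtain ⟨x, hx0, hx⟩ := ih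
      obtain ⟨D, hD, hA⟩ := exists_scale (fun i : Fin m => (x i)⁻¹) (fun i => inv_pos.2 (hx0 i i.2))
      choose a ha0 ha using hA
      obtain ⟨y, hy0, hy⟩ := hcon (univ.image a) (by
        intro e he
        obtain ⟨i, -, rfl⟩ := mem_image.1 he
        exact ha0 i)
      refine ⟨fun i => if i < m then x i else y * D, ?_, ?_⟩
      · intro i hi
        by_cases h : i < m
        · simp only [h, if_true]; exact hx0 i h
        · simp only [h, if_false]
          have : (0 : ℚ) < D := by exact_mod_cast hD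
          positivity
      · intro i j hij hj
        by_cases h : j < m
        · have hi : i < m := hij.trans h
          simp only [h, hi, if_true]
          exact hx i j hij h
        · have hi : i < m := by omega
          simp only [h, hi, if_true, if_false]
          have h1 := hy (a ⟨i, hi⟩) (mem_image.2 ⟨_, mem_univ _, rfl⟩)
          have h2 : y * (a ⟨i, hi⟩ : ℚ) = y * D / x i := by
            rw [ha]
            simp only
            field_simp
          rwa [h2] at h1
  obtain ⟨x, hx0, hx⟩ := hseq N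
  obtain ⟨f, hf1, hf2, q, hq⟩ := hN (fun i j => decide (Rep (-1) (x j / x i)))
  have hf0 : ∀ i, 0 < x (f i) := fun i => hx0 _ (hf2 i)
  have hinj : Function.Injective (fun i => x (f i)) := by
    intro i j h
    by_contra hne
    have key : ∀ i j : Fin k, i < j → x (f i) = x (f j) → False := by
      intro i j hij h
      apply hx (f i) (f j) (hf1 hij) (hf2 j)
      rw [h, div_self (hf0 j).ne']
      exact ⟨rep_one _ (Or.inr rfl), rep_one _ (Or.inl rfl)⟩
    rcases lt_or_gt_of_ne hne with h1 | h1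
    · exact key i j h1 h
    · exact key j i h1 h.symm
  cases q with
  | true =>
    obtain ⟨i, j, hij, hrep⟩ := mt_ratio k hk 1 (Or.inl rfl) (fun i => x (f i)) hf0 hinj
    rcases lt_or_gt_of_ne hij with h1 | h1
    · have h2 := of_decide_eq_true (hq i j h1)
      apply hx (f i) (f j) (hf1 h1) (hf2 j)
      refine ⟨h2, ?_⟩
      have := hrep.inv
      rwa [inv_div] at this
    · have h2 := of_decide_eq_true (hq j i h1)
      exact hx (f j) (f i) (hf1 h1) (hf2 i) ⟨h2, hrep⟩
  | false =>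
    obtain ⟨i, j, hij, hrep⟩ := mt_ratio k hk (-1) (Or.inr rfl) (fun i => x (f i)) hf0 hinj
    rcases lt_or_gt_of_ne hij with h1 | h1
    · have h2 := of_decide_eq_false (hq i j h1)
      apply h2
      have := hrep.inv
      rwa [inv_div] at this
    · have h2 := of_decide_eq_false (hq j i h1)
      exact h2 hrep

end Pool.Agent.H355R2.Schinzel
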