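import Mathlib
import Pool.Agent.H355R2.Schinzel1

set_option autoImplicit false

/-! From syndeticity to positive lower density among the positive integers. -/

namespace Pool.Agent.H355R2.Schinzel

open Finset

open Classical in
theorem density (P : ℚ → Prop) (E : Finset ℕ) (hE0 : ∀ e ∈ E, 0 < e)
    (hE : ∀ x : ℚ, 0 < x → ∃ e ∈ E, P (x * e)) :
    ∃ δ : ℝ, 0 < δ ∧ ∃ X₀ : ℕ, ∀ X ≥ X₀, δ * (X : ℝ) ≤
      (((Icc 1 X).filter (fun r : ℕ => P r)).card : ℝ) := by
  obtain ⟨e₀, he₀, -⟩ := hE 1 one_pos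
  set M : ℕ := E.sup id with hM
  have hMle : ∀ e ∈ E, e ≤ M := fun e he => Finset.le_sup (f := id) he
  have hM0 : 0 < M := lt_of_lt_of_le (hE0 e₀ he₀) (hMle e₀ he₀)
  have hs : 0 < E.card := Finset.card_pos.2 ⟨e₀, he₀⟩
  refine ⟨1 / (2 * M * E.card), by positivity, M, fun X hX => ?_⟩
  set Y := X / M with hY
  have hchoose : ∀ y : ℕ, ∃ e, 0 < y → e ∈ E ∧ P ((y : ℚ) * e) := by
    intro y
    by_cases hy : 0 < y
    · obtain ⟨e, he, h⟩ := hE y (by exact_mod_cast hy)
      exact ⟨e, fun _ => ⟨he, h⟩⟩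
    · exact ⟨0, fun h => absurd h hy⟩
  choose g hg using hchoose
  have hmaps : ∀ y ∈ Icc 1 Y, y * g y ∈ (Icc 1 X).filter (fun r : ℕ => P r) := by
    intro y hy
    rw [mem_Icc] at hy
    obtain ⟨h1, h2⟩ := hg y (by omega)
    rw [mem_filter, mem_Icc]
    refine ⟨⟨Nat.mul_pos (by omega) (hE0 _ h1), ?_⟩, ?_⟩
    · calc y * g y ≤ Y * M := Nat.mul_le_mul hy.2 (hMle _ h1)
        _ ≤ X := Nat.div_mul_le_self X M
    · push_cast; exact h2
  have hcard : (Icc 1 Y).card ≤
      E.card * ((Icc 1 X).filter (fun r : ℕ => P r)).card := by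
    refine Finset.card_le_mul_card_image_of_maps_to (f := fun y => y * g y) hmaps _ ?_
    intro v _
    apply card_le_card_of_injOn g
    · intro y hy
      rw [mem_coe, mem_filter, mem_Icc] at hy
      exact (hg y (by omega)).1
    · intro y hy y' hy' h
      rw [mem_coe, mem_filter, mem_Icc] at hy hy'
      have h1 := (hg y (by omega)).1
      have h2 : y * g y = y' * g y := by rw [hy.2, ← hy'.2, h]
      exact Nat.eq_of_mul_eq_mul_right (hE0 _ h1) h2
  rw [Nat.card_Icc, Nat.add_sub_cancel] at hcard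
  have hY1 : 1 ≤ Y := (Nat.le_div_iff_mul_le hM0).2 (by rw [one_mul]; exact hX)
  have hXY : X < M * (Y + 1) := Nat.lt_mul_div_succ X hM0
  have h1 : (X : ℝ) ≤ M * (Y + 1) := by exact_mod_cast hXY.le
  have h2 : (1 : ℝ) ≤ Y := by exact_mod_cast hY1
  have h3 : (Y : ℝ) ≤ E.card * (((Icc 1 X).filter (fun r : ℕ => P r)).card : ℝ) := by
    exact_mod_cast hcard
  have hM0' : (0 : ℝ) < M := by exact_mod_cast hM0
  have hs' : (0 : ℝ) < E.card := by exact_mod_cast hs
  rw [div_mul_eq_mul_div, one_mul, div_le_iff₀ (by positivity)]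
  have h4 : (X : ℝ) ≤ M * (2 * Y) := h1.trans (mul_le_mul_of_nonneg_left (by linarith) hM0'.le)
  calc (X : ℝ) ≤ M * (2 * Y) := h4
    _ ≤ M * (2 * (E.card * (((Icc 1 X).filter (fun r : ℕ => P r)).card : ℝ))) := by
        apply mul_le_mul_of_nonneg_left _ hM0'.le
        linarith
    _ = _ := by ring

end Pool.Agent.H355R2.Schinzel
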